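import Mathlib

set_option autoImplicit false

/-!
# Group-developed Menon Hadamard matrices over dicyclic groups: field descent

For odd `u > 1` and `t = u²`, a `Q_{4t}`-developed Menon Hadamard matrix gives, for every `t`-th
root of unity `w`, two ternary elements `x, y` of `ℤ[C_t]` with `x(w) y(w⁻¹) = 0` and
`|x(w)|² + |y(w)|² = t`.  At a primitive `t`-th root of unity one of them, `X`, is an integer of
`ℚ(ζ_t)` all of whose conjugates have modulus `u`.  If for some `d ∣ u` the automorphism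
`ζ ↦ ζ^(1 + t/d)` fixes the ideal `(X)`, then (Kronecker) it multiplies `X` by a `d`-th root of
unity, so `X` is carried by one residue class modulo `d`, and comparing energies over all
characters gives `d φ(t) ≤ t`.  The ideal is fixed as soon as for every prime `q ∣ u` either
`1 + t/d` or `-1` is a power of `q` modulo the `q`-free part of `t`.
-/

namespace Pool.Agent.Results.MP_d3ed34_co.FieldDescent



section PartA

open QuaternionGroup Finset

/-- The obvious bijection from two copies of `ZMod (2n)` to the dicyclic group. -/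
def eqv (n : ℕ) : ZMod (2 * n) ⊕ ZMod (2 * n) ≃ QuaternionGroup n where
  toFun i := match i with
    | Sum.inl j => a j
    | Sum.inr j => xa j
  invFun i := match i with
    | a j => Sum.inl j
    | xa j => Sum.inr j
  left_inv := by rintro (x | x) <;> rfl
  right_inv := by rintro (x | x) <;> rfl

lemma sum_quat {n : ℕ} [NeZero n] {R : Type*} [AddCommMonoid R] (φ : QuaternionGroup n → R) :
    ∑ k, φ k = ∑ i, φ (a i) + ∑ i, φ (xa i) := by
  rw [← Fintype.sum_equiv (eqv n) (fun s => φ (eqv n s)) φ (fun _ => rfl), Fintype.sum_sum_type]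
  rfl

lemma conv1 {m : ℕ} [NeZero m] {R : Type*} [CommRing R] (χ : ZMod m → R)
    (hχ : ∀ i j, χ (i + j) = χ i * χ j) (A B : ZMod m → ℤ) :
    ∑ c, χ c * ((∑ i, A (c + i) * B i : ℤ) : R) = (∑ i, (A i : R) * χ i) * ∑ i, (B i : R) * χ (-i) := by
  have h1 : ∀ c, χ c * ((∑ i, A (c + i) * B i : ℤ) : R) = ∑ i, χ c * ((A (c + i) : R) * (B i : R)) := by
    intro c
    push_cast
    rw [mul_sum]
  simp_rw [h1]
  rw [sum_comm]
  have h2 : ∀ i, ∑ c, χ c * ((A (c + i) : R) * (B i : R)) = ∑ j, χ (j - i) * ((A j : R) * (B i : R)) := by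
    intro i
    refine Fintype.sum_equiv (Equiv.addRight i) _ _ ?_
    intro c
    simp
  simp_rw [h2]
  rw [sum_comm, sum_mul_sum]
  refine sum_congr rfl fun j _ => sum_congr rfl fun i _ => ?_
  rw [sub_eq_add_neg, hχ]
  ring

lemma conv2 {m : ℕ} [NeZero m] {R : Type*} [CommRing R] (χ : ZMod m → R)
    (hχ : ∀ i j, χ (i + j) = χ i * χ j) (A B : ZMod m → ℤ) :
    ∑ c, χ c * ((∑ i, A (i - c) * B i : ℤ) : R) = (∑ i, (A i : R) * χ (-i)) * ∑ i, (B i : R) * χ i := by
  have h1 : ∀ c, χ c * ((∑ i, A (i - c) * B i : ℤ) : R) = ∑ i, χ c * ((A (i - c) : R) * (B i : R)) := by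
    intro c
    push_cast
    rw [mul_sum]
  simp_rw [h1]
  rw [sum_comm]
  have h2 : ∀ i, ∑ c, χ c * ((A (i - c) : R) * (B i : R)) = ∑ j, χ (i - j) * ((A j : R) * (B i : R)) := by
    intro i
    refine Fintype.sum_equiv (Equiv.subLeft i) _ _ ?_
    intro c
    simp
  simp_rw [h2]
  rw [sum_comm, sum_mul_sum]
  refine sum_congr rfl fun j _ => sum_congr rfl fun i _ => ?_
  rw [sub_eq_add_neg, hχ]
  ring

/-- Character identities for a group-developed Menon Hadamard matrix over the dicyclic group. -/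
lemma char_ids {n : ℕ} [NeZero n] (N : ℤ) (f : QuaternionGroup n → ℤ)
    (hE : ∀ g, ∑ k, f (g * k) * f k = if g = 1 then N else 0)
    {R : Type*} [CommRing R] [IsDomain R] [CharZero R] (χ : ZMod (2 * n) → R)
    (hχ : ∀ i j, χ (i + j) = χ i * χ j) (h0 : χ 0 = 1) (hn : χ (n : ZMod (2 * n)) = 1) :
    (∑ i, (f (a i) : R) * χ i) * (∑ i, (f (a i) : R) * χ (-i)) +
      (∑ i, (f (xa i) : R) * χ i) * (∑ i, (f (xa i) : R) * χ (-i)) = N ∧
    (∑ i, (f (xa i) : R) * χ i) * (∑ i, (f (a i) : R) * χ (-i)) = 0 := by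
  have E1 : ∀ c : ZMod (2 * n), ∑ i, f (a (c + i)) * f (a i) + ∑ i, f (xa (i - c)) * f (xa i) =
      if c = 0 then N else 0 := by
    intro c
    have := hE (a c)
    rw [sum_quat] at this
    simp only [a_mul_a, a_mul_xa] at this
    rw [this]
    by_cases hc : c = 0
    · subst hc; simp
    · rw [if_neg hc, if_neg]
      intro h
      rw [one_def] at h
      exact hc (by injection h)
  have E2 : ∀ c : ZMod (2 * n), ∑ i, f (xa (c + i)) * f (a i) +
      ∑ i, f (a ((n : ZMod (2 * n)) + i - c)) * f (xa i) = 0 := by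
    intro c
    have := hE (xa c)
    rw [sum_quat] at this
    simp only [xa_mul_a, xa_mul_xa] at this
    rw [this, if_neg]
    intro h
    rw [one_def] at h
    cases h
  constructor
  · have h1 := conv1 χ hχ (fun i => f (a i)) (fun i => f (a i))
    have h2 := conv2 χ hχ (fun i => f (xa i)) (fun i => f (xa i))
    rw [← h1, mul_comm (∑ i, (f (xa i) : R) * χ i), ← h2, ← sum_add_distrib]
    have h3 : ∀ c : ZMod (2 * n), χ c * ((∑ i, f (a (c + i)) * f (a i) : ℤ) : R) +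
        χ c * ((∑ i, f (xa (i - c)) * f (xa i) : ℤ) : R) = if c = 0 then (N : R) else 0 := by
      intro c
      rw [← mul_add, ← Int.cast_add, E1 c]
      by_cases hc : c = 0
      · subst hc; simp [h0]
      · simp [hc]
    rw [sum_congr rfl fun c _ => h3 c]
    simp
  · have h1 := conv1 χ hχ (fun i => f (xa i)) (fun i => f (a i))
    have h2 := conv2 χ hχ (fun i => f (a ((n : ZMod (2 * n)) + i))) (fun i => f (xa i))
    have h3 : ∑ i, (f (a ((n : ZMod (2 * n)) + i)) : R) * χ (-i) = ∑ i, (f (a i) : R) * χ (-i) := by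
      refine Fintype.sum_equiv (Equiv.addLeft (n : ZMod (2 * n))) _ _ ?_
      intro i
      simp only [Equiv.coe_addLeft]
      have : χ (-i) = χ (n : ZMod (2 * n)) * χ (-((n : ZMod (2 * n)) + i)) := by
        rw [← hχ]
        congr 1
        ring
      rw [this, hn, one_mul]
    rw [h3] at h2
    have h4 : ∑ c : ZMod (2 * n), (χ c * ((∑ i, f (xa (c + i)) * f (a i) : ℤ) : R) +
        χ c * ((∑ i, f (a ((n : ZMod (2 * n)) + (i - c))) * f (xa i) : ℤ) : R)) = 0 := by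
      refine sum_eq_zero fun c _ => ?_
      rw [← mul_add, ← Int.cast_add]
      have := E2 c
      simp only [add_sub_assoc] at this
      rw [this]
      simp
    rw [sum_add_distrib, h1, h2] at h4
    have h5 : (2 : R) * ((∑ i, (f (xa i) : R) * χ i) * (∑ i, (f (a i) : R) * χ (-i))) = 0 := by
      rw [← h4]; ring
    rcases mul_eq_zero.mp h5 with h | h
    · exact absurd h two_ne_zero
    · exact h

lemma pow_val_add {m : ℕ} [NeZero m] {R : Type*} [CommRing R] {ζ : R} (hζ : ζ ^ m = 1)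
    (i j : ZMod m) : ζ ^ (i + j).val = ζ ^ i.val * ζ ^ j.val := by
  rw [ZMod.val_add, ← pow_add]
  exact (pow_eq_pow_mod _ hζ).symm

lemma sum_zmod_range {m : ℕ} [NeZero m] {R : Type*} [AddCommMonoid R] (φ : ZMod m → R) :
    ∑ i, φ i = ∑ k ∈ range m, φ (k : ZMod m) := by
  symm
  refine sum_bij' (fun k _ => (k : ZMod m)) (fun i _ => i.val) ?_ ?_ ?_ ?_ ?_
  · intro k _; exact mem_univ _
  · intro i _; exact mem_range.mpr (ZMod.val_lt i)
  · intro k hk
    exact ZMod.val_cast_of_lt (mem_range.mp hk)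
  · intro i _
    exact ZMod.natCast_zmod_val i
  · intro k _; rfl

/-- folding a sum over `ZMod (2n)` into a ternary sequence of length `n` -/
lemma fold_sum {n : ℕ} [NeZero n] {R : Type*} [CommRing R] (H : ZMod (2 * n) → ℤ)
    (hH : ∀ i, H i = 1 ∨ H i = -1) :
    ∃ z : ℕ → ℤ, (∀ k, |z k| ≤ 1) ∧ ∀ ζ : R, ζ ^ n = 1 →
      ∑ i, (H i : R) * ζ ^ (i.val) = 2 * ∑ k ∈ range n, (z k : R) * ζ ^ k := by
  refine ⟨fun k => (H (k : ZMod (2 * n)) + H ((n + k : ℕ) : ZMod (2 * n))) / 2, ?_, ?_⟩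
  · intro k
    rcases hH (k : ZMod (2 * n)) with h1 | h1 <;>
    rcases hH ((n + k : ℕ) : ZMod (2 * n)) with h2 | h2 <;> simp only [h1, h2] <;> norm_num
  · intro ζ hζ
    rw [sum_zmod_range]
    have h1 : ∀ k ∈ range (2 * n), (H (k : ZMod (2 * n)) : R) * ζ ^ ((k : ZMod (2 * n)).val) =
        (H (k : ZMod (2 * n)) : R) * ζ ^ k := by
      intro k hk
      rw [ZMod.val_cast_of_lt (mem_range.mp hk)]
    have hr : range (2 * n) = range (n + n) := by rw [two_mul]
    rw [sum_congr rfl h1, hr, sum_range_add, ← sum_add_distrib, mul_sum]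
    refine sum_congr rfl fun k _ => ?_
    rw [pow_add, hζ, one_mul, ← add_mul, ← mul_assoc]
    congr 1
    have h2 : H (k : ZMod (2 * n)) + H ((n + k : ℕ) : ZMod (2 * n)) =
        2 * ((H (k : ZMod (2 * n)) + H ((n + k : ℕ) : ZMod (2 * n))) / 2) := by
      rcases hH (k : ZMod (2 * n)) with h1 | h1 <;>
      rcases hH ((n + k : ℕ) : ZMod (2 * n)) with h2 | h2 <;> simp only [h1, h2] <;> norm_num
    have h3 := congrArg (fun x : ℤ => (x : R)) h2
    push_cast at h3 ⊢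
    exact h3

lemma exists_z {n : ℕ} [NeZero n] (f : QuaternionGroup n → ℤ) (hf : ∀ g, f g = 1 ∨ f g = -1)
    (hE : ∀ g, ∑ k, f (g * k) * f k = if g = 1 then 4 * (n : ℤ) else 0)
    {R : Type*} [CommRing R] [IsDomain R] [CharZero R] (ζ ζ' : R) (h1 : ζ * ζ' = 1)
    (hn : ζ ^ n = 1) :
    ∃ z : ℕ → ℤ, (∀ k, |z k| ≤ 1) ∧
      (∑ k ∈ range n, (z k : R) * ζ ^ k) * (∑ k ∈ range n, (z k : R) * ζ' ^ k) = (n : R) := by
  have h2n : ζ ^ (2 * n) = 1 := by rw [mul_comm, pow_mul, hn, one_pow]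
  have hn' : ζ' ^ n = 1 := by
    have : (ζ * ζ') ^ n = 1 := by rw [h1, one_pow]
    rwa [mul_pow, hn, one_mul] at this
  have hnlt : n < 2 * n := by have := NeZero.pos n; omega
  obtain ⟨e1, e2⟩ := char_ids (4 * (n : ℤ)) f hE (fun i : ZMod (2 * n) => ζ ^ i.val)
    (fun i j => pow_val_add h2n i j) (by simp) (by
      rw [ZMod.val_cast_of_lt hnlt, hn])
  have hneg : ∀ i : ZMod (2 * n), ζ ^ (-i).val = ζ' ^ i.val := by
    intro i
    have a1 : ζ ^ i.val * ζ ^ (-i).val = 1 := by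
      rw [← pow_val_add h2n, add_neg_cancel]; simp
    have a2 : ζ ^ i.val * ζ' ^ i.val = 1 := by rw [← mul_pow, h1, one_pow]
    have a3 : ζ ^ i.val ≠ 0 := left_ne_zero_of_mul_eq_one a2
    exact mul_left_cancel₀ a3 (a1.trans a2.symm)
  simp only [hneg] at e1 e2
  have key : ∀ H : ZMod (2 * n) → ℤ, (∀ i, H i = 1 ∨ H i = -1) →
      (∑ i, (H i : R) * ζ ^ (i.val)) * (∑ i, (H i : R) * ζ' ^ (i.val)) = ((4 * (n : ℤ) : ℤ) : R) →
      ∃ z : ℕ → ℤ, (∀ k, |z k| ≤ 1) ∧
      (∑ k ∈ range n, (z k : R) * ζ ^ k) * (∑ k ∈ range n, (z k : R) * ζ' ^ k) = (n : R) := by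
    intro H hH hp
    obtain ⟨z, hz, hz2⟩ := fold_sum (R := R) H hH
    refine ⟨z, hz, ?_⟩
    rw [hz2 ζ hn, hz2 ζ' hn'] at hp
    push_cast at hp
    have h4 : (4 : R) ≠ 0 := by
      exact_mod_cast (Nat.cast_ne_zero (R := R)).mpr (show (4 : ℕ) ≠ 0 by norm_num)
    apply mul_left_cancel₀ h4
    rw [← hp]; ring
  rcases mul_eq_zero.mp e2 with h | h
  · rw [h, zero_mul, add_zero] at e1
    exact key (fun i => f (a i)) (fun i => hf _) e1
  · rw [h, mul_zero, zero_add] at e1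
    exact key (fun i => f (xa i)) (fun i => hf _) e1

end PartA




section PartB1

open Finset

lemma pow_eq_of_modEq {R : Type*} [Monoid R] {t : ℕ} {a : R} (h : a ^ t = 1) {i j : ℕ}
    (hij : i ≡ j [MOD t]) : a ^ i = a ^ j := by
  rw [pow_eq_pow_mod i h, pow_eq_pow_mod j h, hij]

/-- The algebraic core of the descent: the averaging argument. -/
lemma descent_eq {R : Type*} [CommRing R] [IsDomain R] [CharZero R] {t M d : ℕ} (ht : t = M * d)
    (hdM : d ∣ M) (htodd : Odd t) {ζ : R} (hζ : IsPrimitiveRoot ζ t) (z : ℕ → ℤ)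
    (hX : ∑ k ∈ range t, (z k : R) * ζ ^ k ≠ 0) (κ : R) (hκ : κ = 1 ∨ κ = -1) (r : ℕ)
    (hstep : ∀ j : ℕ, ∑ k ∈ range t, (z k : R) * (ζ ^ (1 + (j + 1) * M)) ^ k =
      (∑ k ∈ range t, (z k : R) * (ζ ^ (1 + j * M)) ^ k) * (κ * ζ ^ (r * (1 + j * M)))) :
    ∃ k₀ : ℕ, ∑ k ∈ range t, (z k : R) * ζ ^ k =
      ∑ k ∈ range t, ((if k ≡ k₀ [MOD d] then z k else 0 : ℤ) : R) * ζ ^ k := by
  have hd : Odd d := by
    rw [ht] at htodd
    exact (Nat.odd_mul.mp htodd).2
  have hM0 : M ≠ 0 := by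
    rintro rfl
    rw [ht, zero_mul] at htodd
    exact absurd htodd (by decide)
  have hd0 : d ≠ 0 := by
    rintro rfl
    exact absurd hd (by decide)
  have hζt : ζ ^ t = 1 := hζ.pow_eq_one
  set X := ∑ k ∈ range t, (z k : R) * ζ ^ k with hXdef
  -- iterate
  have hit : ∀ j : ℕ, ∑ k ∈ range t, (z k : R) * (ζ ^ (1 + j * M)) ^ k =
      X * (κ ^ j * ζ ^ (r * (j + M * ∑ i ∈ range j, i))) := by
    intro j
    induction j with
    | zero => simp [hXdef]
    | succ j ih =>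
      rw [hstep j, ih, sum_range_succ, pow_succ, mul_assoc]
      congr 1
      have : r * (j + 1 + M * (∑ i ∈ range j, i + j)) =
          r * (j + M * ∑ i ∈ range j, i) + r * (1 + j * M) := by ring
      rw [this, pow_add]
      ring
  have hω : (ζ ^ M) ^ d = 1 := by rw [← pow_mul, ← ht, hζt]
  obtain ⟨h, hh⟩ := hd
  have hsum : ∑ i ∈ range d, i = d * h := by
    have := Finset.sum_range_id_mul_two d
    have h2 : (∑ i ∈ range d, i) * 2 = (d * h) * 2 := by
      rw [this, hh]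
      simp only [Nat.add_sub_cancel]
      ring
    exact Nat.eq_of_mul_eq_mul_right (by norm_num) h2
  have hdd := hit d
  have hend : ∑ k ∈ range t, (z k : R) * (ζ ^ (1 + d * M)) ^ k = X := by
    rw [hXdef]
    refine sum_congr rfl fun k _ => ?_
    congr 2
    rw [pow_add, pow_one, mul_comm d M, ← ht, hζt, mul_one]
  rw [hend, hsum] at hdd
  have h1 : κ ^ d * ζ ^ (r * (d + M * (d * h))) = 1 := by
    have : X * 1 = X * (κ ^ d * ζ ^ (r * (d + M * (d * h)))) := by rw [mul_one]; exact hdd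
    exact (mul_left_cancel₀ hX this).symm
  have h2 : ζ ^ (r * (d + M * (d * h))) = ζ ^ (r * d) := by
    have : r * (d + M * (d * h)) = r * d + t * (r * h) := by rw [ht]; ring
    rw [this, pow_add, pow_mul ζ t, hζt, one_pow, mul_one]
  rw [h2] at h1
  have hκ1 : κ = 1 := by
    rcases hκ with h3 | h3
    · exact h3
    · exfalso
      have h4 : (κ ^ d * ζ ^ (r * d)) ^ t = 1 := by rw [h1, one_pow]
      rw [mul_pow, ← pow_mul ζ, mul_comm (r * d) t, pow_mul ζ t, hζt, one_pow, mul_one, ← pow_mul,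
        h3, Odd.neg_one_pow (Odd.mul ⟨h, hh⟩ htodd)] at h4
      have h5 : (2 : R) = 0 := by linear_combination -h4
      exact two_ne_zero h5
  subst hκ1
  rw [one_pow, one_mul] at h1
  have h3 : t ∣ r * d := (hζ.pow_eq_one_iff_dvd _).mp h1
  rw [ht] at h3
  obtain ⟨k₀, hk₀⟩ : M ∣ r := Nat.dvd_of_mul_dvd_mul_right (Nat.pos_of_ne_zero hd0) h3
  refine ⟨k₀, ?_⟩
  -- Y_j = X ω^{k₀ j}
  have hMd : ∃ c, M = d * c := hdM
  obtain ⟨c, hc⟩ := hMd
  have hωM : (ζ ^ M) ^ M = 1 := by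
    nth_rewrite 2 [hc]
    rw [pow_mul, hω, one_pow]
  have hY : ∀ j : ℕ, ∑ k ∈ range t, (z k : R) * (ζ ^ (1 + j * M)) ^ k = X * ((ζ ^ M) ^ k₀) ^ j := by
    intro j
    rw [hit j, one_pow, one_mul]
    congr 1
    have : r * (j + M * ∑ i ∈ range j, i) = M * (k₀ * j) + M * M * (k₀ * ∑ i ∈ range j, i) := by
      rw [hk₀]; ring
    rw [this, pow_add, pow_mul ζ (M * M), pow_mul ζ M M, hωM, one_pow, mul_one, pow_mul, pow_mul]
  -- averaging
  have hωprim : IsPrimitiveRoot (ζ ^ M) d := hζ.pow (Nat.pos_of_ne_zero (by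
    rw [ht]; exact Nat.mul_ne_zero hM0 hd0)) ht
  have hgeom : ∀ m : ℕ, ∑ j ∈ range d, ((ζ ^ M) ^ m) ^ j = if d ∣ m then (d : R) else 0 := by
    intro m
    by_cases hm : d ∣ m
    · rw [if_pos hm]
      have : (ζ ^ M) ^ m = 1 := (hωprim.pow_eq_one_iff_dvd m).mpr hm
      rw [this]
      simp
    · rw [if_neg hm]
      have hne : (ζ ^ M) ^ m ≠ 1 := fun h => hm ((hωprim.pow_eq_one_iff_dvd m).mp h)
      have hpp : ((ζ ^ M) ^ m) ^ d = 1 := by
        rw [← pow_mul (ζ ^ M), mul_comm m d, pow_mul, hω, one_pow]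
      have := mul_geom_sum ((ζ ^ M) ^ m) d
      rw [hpp, sub_self] at this
      rcases mul_eq_zero.mp this with h4 | h4
      · exact absurd (sub_eq_zero.mp h4) hne
      · exact h4
  have hL : ∑ j ∈ range d, ((ζ ^ M) ^ ((d - 1) * k₀)) ^ j *
      ∑ k ∈ range t, (z k : R) * (ζ ^ (1 + j * M)) ^ k = (d : R) * X := by
    have : ∀ j ∈ range d, ((ζ ^ M) ^ ((d - 1) * k₀)) ^ j *
      ∑ k ∈ range t, (z k : R) * (ζ ^ (1 + j * M)) ^ k = X := by
      intro j _
      rw [hY j]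
      have h5 : ((ζ ^ M) ^ ((d - 1) * k₀)) * ((ζ ^ M) ^ k₀) = 1 := by
        rw [← pow_add]
        have : (d - 1) * k₀ + k₀ = d * k₀ := by
          obtain ⟨e, rfl⟩ := Nat.exists_eq_succ_of_ne_zero hd0
          simp only [Nat.succ_eq_add_one, Nat.add_sub_cancel]
          ring
        rw [this, pow_mul, hω, one_pow]
      calc ((ζ ^ M) ^ ((d - 1) * k₀)) ^ j * (X * ((ζ ^ M) ^ k₀) ^ j)
          = X * (((ζ ^ M) ^ ((d - 1) * k₀)) * ((ζ ^ M) ^ k₀)) ^ j := by rw [mul_pow]; ring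
        _ = X := by rw [h5, one_pow, mul_one]
    rw [sum_congr rfl this]
    simp
  have hRt : ∑ j ∈ range d, ((ζ ^ M) ^ ((d - 1) * k₀)) ^ j *
      ∑ k ∈ range t, (z k : R) * (ζ ^ (1 + j * M)) ^ k =
      (d : R) * ∑ k ∈ range t, ((if k ≡ k₀ [MOD d] then z k else 0 : ℤ) : R) * ζ ^ k := by
    simp_rw [mul_sum]
    rw [sum_comm]
    refine sum_congr rfl fun k _ => ?_
    have h6 : ∀ j ∈ range d, ((ζ ^ M) ^ ((d - 1) * k₀)) ^ j * ((z k : R) * (ζ ^ (1 + j * M)) ^ k) =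
        (z k : R) * ζ ^ k * ((ζ ^ M) ^ ((d - 1) * k₀ + k)) ^ j := by
      intro j _
      have : (ζ ^ (1 + j * M)) ^ k = ζ ^ k * (((ζ ^ M) ^ k) ^ j) := by
        rw [← pow_mul, ← pow_mul, ← pow_mul, ← pow_add]
        congr 1
        ring
      rw [this, pow_add, mul_pow]
      ring
    rw [sum_congr rfl h6, ← mul_sum, hgeom]
    have hiff : d ∣ (d - 1) * k₀ + k ↔ k ≡ k₀ [MOD d] := by
      constructor
      · intro hdv
        have h7 : (d - 1) * k₀ + k + k₀ ≡ 0 + k₀ [MOD d] :=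
          Nat.ModEq.add_right _ ((Nat.modEq_zero_iff_dvd).mpr hdv)
        have h8 : (d - 1) * k₀ + k + k₀ = d * k₀ + k := by
          obtain ⟨e, rfl⟩ := Nat.exists_eq_succ_of_ne_zero hd0
          simp only [Nat.succ_eq_add_one, Nat.add_sub_cancel]
          ring
        rw [h8, zero_add] at h7
        have h9 : d * k₀ + k ≡ 0 + k [MOD d] :=
          Nat.ModEq.add_right _ ((Nat.modEq_zero_iff_dvd).mpr (dvd_mul_right _ _))
        rw [zero_add] at h9
        exact h9.symm.trans h7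
      · intro hk
        have h7 : (d - 1) * k₀ + k ≡ (d - 1) * k₀ + k₀ [MOD d] := Nat.ModEq.add_left _ hk
        have h8 : (d - 1) * k₀ + k₀ = d * k₀ := by
          obtain ⟨e, rfl⟩ := Nat.exists_eq_succ_of_ne_zero hd0
          simp only [Nat.succ_eq_add_one, Nat.add_sub_cancel]
          ring
        rw [h8] at h7
        exact (Nat.modEq_zero_iff_dvd).mp
          (h7.trans ((Nat.modEq_zero_iff_dvd).mpr (dvd_mul_right _ _)))
    by_cases hk : k ≡ k₀ [MOD d]
    · rw [if_pos (hiff.mpr hk), if_pos hk]; ring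
    · rw [if_neg (fun h => hk (hiff.mp h)), if_neg hk]; simp
  rw [hL] at hRt
  have hdR : (d : R) ≠ 0 := Nat.cast_ne_zero.mpr hd0
  exact mul_left_cancel₀ hdR hRt

lemma conj_sum {t : ℕ} (ht : t ≠ 0) {w w' : ℂ} (hw : w ^ t = 1) (hww : w * w' = 1) (z : ℕ → ℤ) :
    ∑ k ∈ range t, (z k : ℂ) * w' ^ k = (starRingEnd ℂ) (∑ k ∈ range t, (z k : ℂ) * w ^ k) := by
  have h1 : ‖w‖ = 1 := Complex.norm_eq_one_of_pow_eq_one hw ht
  have h2 : w * (starRingEnd ℂ) w = 1 := by
    rw [Complex.mul_conj, Complex.normSq_eq_norm_sq, h1]; simp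
  have h3 : w ≠ 0 := left_ne_zero_of_mul_eq_one hww
  have h4 : w' = (starRingEnd ℂ) w := mul_left_cancel₀ h3 (hww.trans h2.symm)
  rw [map_sum]
  refine sum_congr rfl fun k _ => ?_
  rw [map_mul, map_pow, h4]
  simp

lemma normSq_sum {t : ℕ} (ht : t ≠ 0) {w w' : ℂ} (hw : w ^ t = 1) (hww : w * w' = 1) (z : ℕ → ℤ) :
    (∑ k ∈ range t, (z k : ℂ) * w ^ k) * (∑ k ∈ range t, (z k : ℂ) * w' ^ k) =
      ((Complex.normSq (∑ k ∈ range t, (z k : ℂ) * w ^ k) : ℝ) : ℂ) := by
  rw [conj_sum ht hw hww, Complex.mul_conj]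

/-- Parseval on the cyclic group of order `t`. -/
lemma parseval {t : ℕ} (ht : t ≠ 0) {w w' : ℂ} (hw : IsPrimitiveRoot w t) (hww : w * w' = 1)
    (y : ℕ → ℤ) :
    ∑ j ∈ range t, Complex.normSq (∑ k ∈ range t, (y k : ℂ) * (w ^ j) ^ k) =
      (t : ℝ) * ∑ k ∈ range t, ((y k : ℝ)) ^ 2 := by
  have hwt : w ^ t = 1 := hw.pow_eq_one
  have hgeom : ∀ a ∈ range t, ∀ b ∈ range t, ∑ j ∈ range t, (w ^ a * w' ^ b) ^ j =
      if a = b then (t : ℂ) else 0 := by
    intro a ha b hb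
    by_cases hab : a = b
    · subst hab
      rw [if_pos rfl, ← mul_pow, hww, one_pow]
      simp
    · rw [if_neg hab]
      have hne : w ^ a * w' ^ b ≠ 1 := by
        intro h
        have h1 : w ^ a * (w' ^ b * w ^ b) = w ^ b := by rw [← mul_assoc, h, one_mul]
        rw [← mul_pow, mul_comm w' w, hww, one_pow, mul_one] at h1
        exact hab (hw.pow_inj (mem_range.mp ha) (mem_range.mp hb) h1)
      have hp : (w ^ a * w' ^ b) ^ t = 1 := by
        have hw't : w' ^ t = 1 := by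
          have : (w * w') ^ t = 1 := by rw [hww, one_pow]
          rwa [mul_pow, hwt, one_mul] at this
        rw [mul_pow, ← pow_mul, ← pow_mul, mul_comm a, mul_comm b, pow_mul, pow_mul, hwt, hw't,
          one_pow, one_pow, one_mul]
      have := mul_geom_sum (w ^ a * w' ^ b) t
      rw [hp, sub_self] at this
      rcases mul_eq_zero.mp this with h4 | h4
      · exact absurd (sub_eq_zero.mp h4) hne
      · exact h4
  have hC : ((∑ j ∈ range t, Complex.normSq (∑ k ∈ range t, (y k : ℂ) * (w ^ j) ^ k) : ℝ) : ℂ) =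
      (((t : ℝ) * ∑ k ∈ range t, ((y k : ℝ)) ^ 2 : ℝ) : ℂ) := by
    push_cast
    have h1 : ∀ j ∈ range t, ((Complex.normSq (∑ k ∈ range t, (y k : ℂ) * (w ^ j) ^ k) : ℝ) : ℂ) =
        ∑ a ∈ range t, ∑ b ∈ range t, (y a : ℂ) * (y b : ℂ) * (w ^ a * w' ^ b) ^ j := by
      intro j _
      rw [← normSq_sum ht (w := w ^ j) (w' := w' ^ j) (by
        rw [← pow_mul, mul_comm, pow_mul, hwt, one_pow]) (by rw [← mul_pow, hww, one_pow]),
        sum_mul_sum]
      refine sum_congr rfl fun a _ => sum_congr rfl fun b _ => ?_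
      rw [mul_pow, ← pow_mul, ← pow_mul, ← pow_mul, ← pow_mul, mul_comm j a, mul_comm j b]
      ring
    rw [sum_congr rfl h1, sum_comm]
    rw [mul_sum]
    refine sum_congr rfl fun a ha => ?_
    rw [sum_comm]
    have h2 : ∀ b ∈ range t, ∑ j ∈ range t, (y a : ℂ) * (y b : ℂ) * (w ^ a * w' ^ b) ^ j =
        if a = b then (t : ℂ) * (y a : ℂ) ^ 2 else 0 := by
      intro b hb
      rw [← mul_sum, hgeom a ha b hb]
      by_cases hab : a = b
      · subst hab; rw [if_pos rfl, if_pos rfl]; ring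
      · rw [if_neg hab, if_neg hab, mul_zero]
    rw [sum_congr rfl h2, sum_ite_eq]
    simp [ha]
  exact_mod_cast hC

/-- Energy comparison. -/
lemma energy {t M d : ℕ} (ht : t = M * d) (ht0 : t ≠ 0) {w w' : ℂ} (hw : IsPrimitiveRoot w t)
    (hww : w * w' = 1) (z : ℕ → ℤ) (hz : ∀ k, |z k| ≤ 1) (k₀ : ℕ)
    (hN : ∀ j, j.Coprime t → Complex.normSq
      (∑ k ∈ range t, ((if k ≡ k₀ [MOD d] then z k else 0 : ℤ) : ℂ) * (w ^ j) ^ k) = t) :
    d * Nat.totient t ≤ t := by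
  have hd0 : d ≠ 0 := by rintro rfl; exact ht0 (by rw [ht, mul_zero])
  have hP := parseval ht0 hw hww (fun k => if k ≡ k₀ [MOD d] then z k else 0)
  have h1 : (Nat.totient t : ℝ) * t ≤
      ∑ j ∈ range t, Complex.normSq (∑ k ∈ range t,
        ((if k ≡ k₀ [MOD d] then z k else 0 : ℤ) : ℂ) * (w ^ j) ^ k) := by
    have h2 : (Nat.totient t : ℝ) * t = ∑ j ∈ (range t).filter (fun j => t.Coprime j), (t : ℝ) := by
      rw [sum_const, nsmul_eq_mul, Nat.totient_eq_card_coprime]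
    rw [h2]
    calc ∑ j ∈ (range t).filter (fun j => t.Coprime j), (t : ℝ)
        = ∑ j ∈ (range t).filter (fun j => t.Coprime j), Complex.normSq (∑ k ∈ range t,
        ((if k ≡ k₀ [MOD d] then z k else 0 : ℤ) : ℂ) * (w ^ j) ^ k) := by
          refine sum_congr rfl fun j hj => ?_
          exact (hN j (mem_filter.mp hj).2.symm).symm
      _ ≤ _ := sum_le_sum_of_subset_of_nonneg (filter_subset _ _)
          (fun j _ _ => Complex.normSq_nonneg _)
  have h3 : ∑ k ∈ range t, (((if k ≡ k₀ [MOD d] then z k else 0 : ℤ) : ℝ)) ^ 2 ≤ (M : ℝ) := by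
    have h4 : ∀ k ∈ range t, (((if k ≡ k₀ [MOD d] then z k else 0 : ℤ) : ℝ)) ^ 2 ≤
        if k ≡ k₀ [MOD d] then (1 : ℝ) else 0 := by
      intro k _
      by_cases hk : k ≡ k₀ [MOD d]
      · rw [if_pos hk, if_pos hk]
        have h5 : (z k) ^ 2 ≤ 1 := by
          have := hz k
          rw [abs_le] at this
          nlinarith [this.1, this.2]
        exact_mod_cast h5
      · rw [if_neg hk, if_neg hk]; simp
    refine (sum_le_sum h4).trans ?_
    rw [sum_ite, sum_const_zero, add_zero, sum_const, nsmul_eq_mul, mul_one]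
    have h5 : ((range t).filter (fun k => k ≡ k₀ [MOD d])).card = M := by
      rw [← Nat.count_eq_card_filter_range, Nat.count_modEq_card _ (Nat.pos_of_ne_zero hd0), ht]
      simp [Nat.mul_div_cancel _ (Nat.pos_of_ne_zero hd0)]
    rw [h5]
  have h6 : (Nat.totient t : ℝ) * t ≤ (t : ℝ) * M := by
    refine h1.trans ?_
    rw [hP]
    exact mul_le_mul_of_nonneg_left h3 (Nat.cast_nonneg _)
  have h7 : Nat.totient t * t ≤ t * M := by exact_mod_cast h6
  have h8 : Nat.totient t ≤ M := by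
    rw [mul_comm t M] at h7
    exact Nat.le_of_mul_le_mul_right h7 (Nat.pos_of_ne_zero ht0)
  calc d * Nat.totient t ≤ d * M := Nat.mul_le_mul_left _ h8
    _ = t := by rw [ht, mul_comm]

end PartB1




section PartB2

open NumberField Finset Polynomial

lemma exists_aut {t : ℕ} [NeZero t] {K : Type*} [Field K] [NumberField K]
    [IsCyclotomicExtension {t} ℚ K] {ζ : K} (hζ : IsPrimitiveRoot ζ t) (s : ℕ) (hs : s.Coprime t) :
    ∃ σ : 𝓞 K ≃+* 𝓞 K, σ hζ.toInteger = hζ.toInteger ^ s := by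
  have h := Polynomial.cyclotomic.irreducible_rat (NeZero.pos t)
  have hμ : IsPrimitiveRoot (ζ ^ s) t := hζ.pow_of_coprime s hs
  have hmp : minpoly ℚ (hζ.powerBasis ℚ).gen = minpoly ℚ (hμ.powerBasis ℚ).gen := by
    simp only [IsPrimitiveRoot.powerBasis_gen]
    exact (hζ.minpoly_eq_cyclotomic_of_irreducible h).symm.trans
      (hμ.minpoly_eq_cyclotomic_of_irreducible h)
  have he := (hζ.powerBasis ℚ).equivOfMinpoly_gen (hμ.powerBasis ℚ) hmp
  simp only [IsPrimitiveRoot.powerBasis_gen] at he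
  refine ⟨RingOfIntegers.mapRingEquiv
    (((hζ.powerBasis ℚ).equivOfMinpoly (hμ.powerBasis ℚ) hmp : K ≃ₐ[ℚ] K) : K ≃+* K), ?_⟩
  apply RingOfIntegers.ext
  rw [RingOfIntegers.mapRingEquiv_apply]
  exact he

lemma exists_poly {t : ℕ} [NeZero t] {K : Type*} [Field K] [NumberField K]
    [IsCyclotomicExtension {t} ℚ K] {ζ : K} (hζ : IsPrimitiveRoot ζ t) (x : 𝓞 K) :
    ∃ f : ℤ[X], aeval hζ.toInteger f = x := by
  have h := IsCyclotomicExtension.Rat.adjoin_singleton_eq_top hζ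
  have hx : x ∈ Algebra.adjoin ℤ {hζ.toInteger} := by rw [h]; trivial
  rw [Algebra.adjoin_singleton_eq_range_aeval] at hx
  exact hx

/-- Prime ideals over `q` are preserved by `ζ ↦ ζ^s` when `s` is a power of `q` modulo the
`q`-free part of `t`. -/
lemma mem_of_mem {t : ℕ} [NeZero t] {K : Type*} [Field K] [NumberField K]
    [IsCyclotomicExtension {t} ℚ K] {ζ : K} (hζ : IsPrimitiveRoot ζ t) (s : ℕ)
    (σ : 𝓞 K ≃+* 𝓞 K) (hσ : σ hζ.toInteger = hζ.toInteger ^ s) (q : ℕ) (hq : q.Prime)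
    (P : Ideal (𝓞 K)) [hP : P.IsPrime] (hqP : (q : 𝓞 K) ∈ P) (m : ℕ)
    (hm : q ^ m ≡ s [MOD ordCompl[q] t]) (x : 𝓞 K) (hx : x ∈ P) : σ x ∈ P := by
  obtain ⟨f, rfl⟩ := exists_poly hζ x
  set φ := Ideal.Quotient.mk P with hφ
  have hq0 : ((q : ℕ) : 𝓞 K ⧸ P) = 0 := by
    rw [← map_natCast φ]
    exact Ideal.Quotient.eq_zero_iff_mem.mpr hqP
  have : CharP (𝓞 K ⧸ P) q := by
    have h1 := CharP.ringChar_of_prime_eq_zero hq hq0
    exact ringChar.of_eq h1
  have : ExpChar (𝓞 K ⧸ P) q := ExpChar.prime hq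
  set a := φ hζ.toInteger with ha
  have hζt : hζ.toInteger ^ t = 1 := hζ.toInteger_isPrimitiveRoot.pow_eq_one
  have hat : a ^ t = 1 := by rw [ha, ← map_pow, hζt, map_one]
  have key : a ^ s = a ^ (q ^ m) := by
    have h1 : (a ^ s) ^ (q ^ (t.factorization q)) = (a ^ (q ^ m)) ^ (q ^ (t.factorization q)) := by
      rw [← pow_mul, ← pow_mul]
      apply pow_eq_of_modEq hat
      have h2 := Nat.ModEq.mul_left' (q ^ t.factorization q) hm
      rw [Nat.ordProj_mul_ordCompl_eq_self] at h2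
      rw [mul_comm s, mul_comm (q ^ m)]
      exact h2.symm
    have h3 := iterateFrobenius_inj (𝓞 K ⧸ P) q (t.factorization q)
    apply h3
    rw [iterateFrobenius_def, iterateFrobenius_def]
    exact h1
  have h0 : aeval a f = 0 := by
    have h4 : φ (aeval hζ.toInteger f) = 0 := Ideal.Quotient.eq_zero_iff_mem.mpr hx
    rw [ha]
    rw [Polynomial.aeval_def, Polynomial.hom_eval₂,
      RingHom.ext_int (φ.comp (algebraMap ℤ (𝓞 K))) (algebraMap ℤ (𝓞 K ⧸ P))] at h4
    rw [Polynomial.aeval_def]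
    exact h4
  have h5 : aeval (a ^ s) f = 0 := by
    have h6 : iterateFrobenius (𝓞 K ⧸ P) q m (aeval a f) = 0 := by rw [h0, map_zero]
    rw [Polynomial.aeval_def, Polynomial.hom_eval₂,
      RingHom.ext_int ((iterateFrobenius (𝓞 K ⧸ P) q m).comp (algebraMap ℤ (𝓞 K ⧸ P)))
        (algebraMap ℤ (𝓞 K ⧸ P))] at h6
    rw [iterateFrobenius_def, ← key] at h6
    rw [Polynomial.aeval_def]
    exact h6
  have h7 : φ (σ (aeval hζ.toInteger f)) = 0 := by
    have h8 : σ (aeval hζ.toInteger f) = aeval (hζ.toInteger ^ s) f := by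
      rw [← hσ, Polynomial.aeval_def, Polynomial.aeval_def]
      have := Polynomial.hom_eval₂ f (algebraMap ℤ (𝓞 K)) (σ : 𝓞 K →+* 𝓞 K) hζ.toInteger
      rw [RingHom.ext_int ((σ : 𝓞 K →+* 𝓞 K).comp (algebraMap ℤ (𝓞 K))) (algebraMap ℤ (𝓞 K))]
        at this
      exact this
    rw [h8, Polynomial.aeval_def, Polynomial.hom_eval₂,
      RingHom.ext_int (φ.comp (algebraMap ℤ (𝓞 K))) (algebraMap ℤ (𝓞 K ⧸ P)), map_pow, ← ha]
    exact h5
  exact Ideal.Quotient.eq_zero_iff_mem.mp h7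

lemma map_eq_self {R : Type*} [CommRing R] (σ : R ≃+* R) (P : Ideal R) [hP : P.IsMaximal]
    (h : ∀ x ∈ P, σ x ∈ P) : Ideal.map σ P = P := by
  have h1 : P = Ideal.comap σ P := by
    apply hP.eq_of_le
    · intro h2
      have : (1 : R) ∈ Ideal.comap σ P := by rw [h2]; trivial
      rw [Ideal.mem_comap, map_one] at this
      exact hP.ne_top ((Ideal.eq_top_iff_one _).mpr this)
    · intro x hx
      exact Ideal.mem_comap.mpr (h x hx)
  conv_lhs => rw [h1]
  exact Ideal.map_comap_of_surjective _ σ.surjective P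

lemma exists_prime_mem {R : Type*} [CommRing R] (P : Ideal R) [hP : P.IsPrime] (n : ℕ) :
    n ≠ 0 → (n : R) ∈ P → ∃ q : ℕ, q.Prime ∧ q ∣ n ∧ (q : R) ∈ P := by
  induction n using induction_on_primes with
  | zero => intro h; exact absurd rfl h
  | one =>
    intro _ h
    rw [Nat.cast_one] at h
    exact absurd ((Ideal.eq_top_iff_one _).mpr h) hP.ne_top
  | prime_mul p a hp ih =>
    intro h h2
    rw [Nat.cast_mul] at h2
    rcases hP.mem_or_mem h2 with h3 | h3
    · exact ⟨p, hp, dvd_mul_right _ _, h3⟩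
    · obtain ⟨q, h4, h5, h6⟩ := ih (fun h0 => h (by rw [h0, mul_zero])) h3
      exact ⟨q, h4, h5.mul_left _, h6⟩

end PartB2




section PartB3

open NumberField Finset

lemma decomp {R : Type*} [CommRing R] [IsDedekindDomain R] (σ c : R ≃+* R)
    (t : ℕ)
    (H : ∀ P : Ideal R, P.IsPrime → P ≠ ⊥ → (t : R) ∈ P →
      (Ideal.map σ P = P ∧ Ideal.map σ (Ideal.map c P) = Ideal.map c P) ∨ Ideal.map c P = P)
    (J : Ideal R) : J ≠ 0 → J ∣ Ideal.span {(t : R)} → ∃ A B : Ideal R, J = A * B ∧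
      Ideal.map σ B = B ∧ Ideal.map σ (Ideal.map c B) = Ideal.map c B ∧ Ideal.map c A = A := by
  induction J using UniqueFactorizationMonoid.induction_on_prime with
  | h₁ => intro h; exact absurd rfl h
  | h₂ x hx =>
    intro _ _
    have hx1 : x = 1 := by rw [Ideal.isUnit_iff] at hx; rw [hx, Ideal.one_eq_top]
    refine ⟨1, 1, by rw [hx1, one_mul], ?_, ?_, ?_⟩ <;>
      simp only [Ideal.one_eq_top, Ideal.map_top]
  | h₃ a p ha hp ih =>
    intro _ hd
    obtain ⟨A, B, h1, h2, h3, h4⟩ := ih ha (dvd_of_mul_left_dvd hd)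
    have hp' : p.IsPrime := Ideal.isPrime_of_prime hp
    have hp0 : p ≠ ⊥ := hp.ne_zero
    have htp : (t : R) ∈ p := by
      have h5 : p ∣ Ideal.span {(t : R)} := dvd_of_mul_right_dvd hd
      rw [Ideal.dvd_iff_le, Ideal.span_singleton_le_iff_mem] at h5
      exact h5
    rcases H p hp' hp0 htp with ⟨h6, h7⟩ | h6
    · refine ⟨A, p * B, ?_, ?_, ?_, h4⟩
      · rw [h1]; exact mul_left_comm p A B
      · rw [Ideal.map_mul, h6, h2]
      · rw [Ideal.map_mul, Ideal.map_mul, h7, h3]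
    · refine ⟨p * A, B, ?_, h2, h3, ?_⟩
      · rw [h1, mul_assoc]
      · rw [Ideal.map_mul, h6, h4]

lemma ideal_inv {R : Type*} [CommRing R] [IsDedekindDomain R] [CharZero R]
    (σ c : R ≃+* R) (t : ℕ) (ht : t ≠ 0)
    (H : ∀ P : Ideal R, P.IsPrime → P ≠ ⊥ → (t : R) ∈ P →
      (Ideal.map σ P = P ∧ Ideal.map σ (Ideal.map c P) = Ideal.map c P) ∨ Ideal.map c P = P)
    (I : Ideal R) (hI : I * Ideal.map c I = Ideal.span {(t : R)}) : Ideal.map σ I = I := by
  have htR : (t : R) ≠ 0 := Nat.cast_ne_zero.mpr ht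
  have hsp : Ideal.span {(t : R)} ≠ 0 := by
    rw [Ne, Ideal.zero_eq_bot, Ideal.span_singleton_eq_bot]
    exact htR
  have hI0 : I ≠ 0 := by
    rintro rfl
    rw [zero_mul] at hI
    exact hsp hI.symm
  obtain ⟨A, B, h1, h2, h3, h4⟩ := decomp σ c t H I hI0 (Dvd.intro _ hI)
  have h5 : A ^ 2 * (B * Ideal.map c B) = Ideal.span {(t : R)} := by
    rw [← hI, h1, Ideal.map_mul, h4, sq]
    ac_rfl
  have h6 : (Ideal.map σ A) ^ 2 * (B * Ideal.map c B) = Ideal.span {(t : R)} := by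
    have h7 := congrArg (Ideal.map σ) h5
    rw [Ideal.map_mul, Ideal.map_pow, Ideal.map_mul, h2, h3, Ideal.map_span,
      Set.image_singleton, map_natCast] at h7
    exact h7
  have h8 : B * Ideal.map c B ≠ 0 := by
    intro h
    rw [h, mul_zero] at h5
    exact hsp h5.symm
  have h9 : (Ideal.map σ A) ^ 2 = A ^ 2 := mul_right_cancel₀ h8 (h6.trans h5.symm)
  have h10 : Ideal.map σ A = A := by
    apply dvd_antisymm
    · exact (UniqueFactorizationMonoid.pow_dvd_pow_iff_dvd two_ne_zero).mp (dvd_of_eq h9)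
    · exact (UniqueFactorizationMonoid.pow_dvd_pow_iff_dvd two_ne_zero).mp (dvd_of_eq h9.symm)
  rw [h1, Ideal.map_mul, h10, h2]

/-- The field descent: a ternary cyclic element of modulus `√t` at a primitive `t`-th root
of unity forces `d φ(t) ≤ t`. -/
theorem core {t M d : ℕ} [NeZero t] (ht : t = M * d) (hdM : d ∣ M) (htodd : Odd t)
    (H : ∀ q : ℕ, q.Prime → q ∣ t → (∃ m : ℕ, q ^ m ≡ 1 + M [MOD ordCompl[q] t]) ∨
      ∃ m : ℕ, ordCompl[q] t ∣ q ^ m + 1)
    (z : ℕ → ℤ) (hz : ∀ k, |z k| ≤ 1)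
    {K : Type*} [Field K] [NumberField K] [IsCyclotomicExtension {t} ℚ K] {ζ : K}
    (hζ : IsPrimitiveRoot ζ t)
    (hX : (∑ k ∈ range t, (z k : 𝓞 K) * hζ.toInteger ^ k) *
      (∑ k ∈ range t, (z k : 𝓞 K) * (hζ.toInteger ^ (t - 1)) ^ k) = (t : 𝓞 K)) :
    d * Nat.totient t ≤ t := by
  have ht0 : t ≠ 0 := NeZero.ne t
  have ht1 : 1 ≤ t := Nat.pos_of_ne_zero ht0
  set x := hζ.toInteger with hxdef
  have hx : IsPrimitiveRoot x t := hζ.toInteger_isPrimitiveRoot
  have hxt : x ^ t = 1 := hx.pow_eq_one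
  have hxx : x * x ^ (t - 1) = 1 := by
    rw [← pow_succ', Nat.sub_add_cancel ht1, hxt]
  have hgal : ∀ s : ℕ, s.Coprime t → (∑ k ∈ range t, (z k : 𝓞 K) * (x ^ s) ^ k) *
      (∑ k ∈ range t, (z k : 𝓞 K) * ((x ^ s) ^ (t - 1)) ^ k) = (t : 𝓞 K) := by
    intro s hs
    obtain ⟨τ, hτ⟩ := exists_aut hζ s hs
    have h1 := congrArg τ hX
    rw [map_mul, map_sum, map_sum, map_natCast] at h1
    simp only [map_mul, map_pow, map_intCast] at h1
    rw [← hxdef] at hτ
    rw [hτ] at h1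
    exact h1
  have hns : ∀ (ψ : 𝓞 K →+* ℂ) (s : ℕ), s.Coprime t →
      Complex.normSq (∑ k ∈ range t, (z k : ℂ) * ((ψ x) ^ s) ^ k) = t := by
    intro ψ s hs
    have h1 := congrArg ψ (hgal s hs)
    rw [map_mul, map_sum, map_sum, map_natCast] at h1
    simp only [map_mul, map_pow, map_intCast] at h1
    rw [normSq_sum ht0 (w := (ψ x) ^ s) (w' := ((ψ x) ^ s) ^ (t - 1)) (by
      rw [← map_pow, ← map_pow, ← pow_mul, mul_comm, pow_mul, hxt, one_pow, map_one]) (by
      rw [← pow_succ', Nat.sub_add_cancel ht1, ← map_pow, ← map_pow, ← pow_mul, mul_comm,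
        pow_mul, hxt, one_pow, map_one])] at h1
    exact_mod_cast h1
  set X := ∑ k ∈ range t, (z k : 𝓞 K) * x ^ k with hXdef
  have hX0 : X ≠ 0 := by
    intro h
    rw [h, zero_mul] at hX
    exact Nat.cast_ne_zero.mpr ht0 hX.symm
  have hcopM : ∀ j : ℕ, (1 + j * M).Coprime t := by
    intro j
    have h1 : (1 + j * M).Coprime M := by
      rw [Nat.coprime_add_mul_right_left]
      exact Nat.coprime_one_left M
    rw [ht]
    exact Nat.Coprime.mul_right h1 (Nat.Coprime.coprime_dvd_right hdM h1)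
  have hcop1 : (t - 1).Coprime t := by
    have h1 := Nat.coprime_self_add_right (m := t - 1) (n := 1)
    rw [Nat.sub_add_cancel ht1] at h1
    exact h1.mpr (Nat.coprime_one_right _)
  obtain ⟨c, hc⟩ := exists_aut hζ (t - 1) hcop1
  obtain ⟨σ, hσ⟩ := exists_aut hζ (1 + 1 * M) (hcopM 1)
  rw [← hxdef] at hc hσ
  -- the ideal is invariant
  have hprime : ∀ P : Ideal (𝓞 K), P.IsPrime → P ≠ ⊥ → (t : 𝓞 K) ∈ P →
      (Ideal.map σ P = P ∧ Ideal.map σ (Ideal.map c P) = Ideal.map c P) ∨ Ideal.map c P = P := by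
    intro P hP hP0 htP
    obtain ⟨q, hq, hqt, hqP⟩ := exists_prime_mem P t ht0 htP
    rcases H q hq hqt with ⟨m, hm⟩ | ⟨m, hm⟩
    · left
      have hm' : q ^ m ≡ 1 + 1 * M [MOD ordCompl[q] t] := by rw [one_mul]; exact hm
      have hmax : P.IsMaximal := hP.isMaximal hP0
      have hcP : (Ideal.map c P).IsPrime := Ideal.map_isPrime_of_equiv c
      have hqcP : (q : 𝓞 K) ∈ Ideal.map c P := by
        have := Ideal.mem_map_of_mem c hqP
        rwa [map_natCast] at this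
      have hcP0 : Ideal.map c P ≠ ⊥ := by
        intro h
        rw [h, Ideal.mem_bot] at hqcP
        exact Nat.cast_ne_zero.mpr hq.ne_zero hqcP
      have hcmax : (Ideal.map c P).IsMaximal := hcP.isMaximal hcP0
      constructor
      · exact map_eq_self σ P (fun y hy => mem_of_mem hζ (1 + 1 * M) σ hσ q hq P hqP m hm' y hy)
      · exact map_eq_self σ (Ideal.map c P)
          (fun y hy => mem_of_mem hζ (1 + 1 * M) σ hσ q hq (Ideal.map c P) hqcP m hm' y hy)
    · right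
      have hmax : P.IsMaximal := hP.isMaximal hP0
      have hm' : q ^ m ≡ t - 1 [MOD ordCompl[q] t] := by
        have h1 : q ^ m + 1 ≡ (t - 1) + 1 [MOD ordCompl[q] t] := by
          rw [Nat.sub_add_cancel ht1]
          exact ((Nat.modEq_zero_iff_dvd).mpr hm).trans
            ((Nat.modEq_zero_iff_dvd).mpr (Nat.ordCompl_dvd t q)).symm
        exact Nat.ModEq.add_right_cancel' 1 h1
      exact map_eq_self c P (fun y hy => mem_of_mem hζ (t - 1) c hc q hq P hqP m hm' y hy)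
  have hcX : c X = ∑ k ∈ range t, (z k : 𝓞 K) * (x ^ (t - 1)) ^ k := by
    rw [hXdef, map_sum]
    simp only [map_mul, map_pow, map_intCast, hc]
  have hσX : σ X = ∑ k ∈ range t, (z k : 𝓞 K) * (x ^ (1 + 1 * M)) ^ k := by
    rw [hXdef, map_sum]
    simp only [map_mul, map_pow, map_intCast, hσ]
  have hinv : Ideal.map σ (Ideal.span {X}) = Ideal.span {X} := by
    apply ideal_inv σ c t ht0 hprime
    rw [Ideal.map_span, Set.image_singleton, hcX, Ideal.span_singleton_mul_span_singleton, hX]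
  rw [Ideal.map_span, Set.image_singleton, Ideal.span_singleton_eq_span_singleton] at hinv
  obtain ⟨u, hu⟩ := hinv.symm
  -- the unit is a root of unity
  have hunorm : ∀ φ : K →+* ℂ, ‖φ ((u : 𝓞 K) : K)‖ = 1 := by
    intro φ
    have h1 := hns (φ.comp (algebraMap (𝓞 K) K)) 1 (Nat.coprime_one_left t)
    have h2 := hns (φ.comp (algebraMap (𝓞 K) K)) (1 + 1 * M) (hcopM 1)
    have h3 : (φ.comp (algebraMap (𝓞 K) K)) X =
        ∑ k ∈ range t, (z k : ℂ) * (((φ.comp (algebraMap (𝓞 K) K)) x) ^ 1) ^ k := by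
      rw [hXdef, map_sum]
      simp only [map_mul, map_pow, map_intCast, pow_one]
    have h4 : (φ.comp (algebraMap (𝓞 K) K)) (σ X) =
        ∑ k ∈ range t, (z k : ℂ) * (((φ.comp (algebraMap (𝓞 K) K)) x) ^ (1 + 1 * M)) ^ k := by
      rw [hσX, map_sum]
      simp only [map_mul, map_pow, map_intCast]
    rw [← h3] at h1
    rw [← h4, ← hu, map_mul, Complex.normSq_mul, h1] at h2
    have h5 : (t : ℝ) ≠ 0 := Nat.cast_ne_zero.mpr ht0
    have h6 : Complex.normSq ((φ.comp (algebraMap (𝓞 K) K)) (u : 𝓞 K)) = 1 := by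
      apply mul_left_cancel₀ h5
      rw [h2, mul_one]
    rw [Complex.normSq_eq_norm_sq] at h6
    have h7 : ‖(φ.comp (algebraMap (𝓞 K) K)) (u : 𝓞 K)‖ = 1 := by
      have h8 := norm_nonneg ((φ.comp (algebraMap (𝓞 K) K)) (u : 𝓞 K))
      nlinarith [h6, h8]
    exact h7
  obtain ⟨n, hn, hun⟩ := Embeddings.pow_eq_one_of_norm_eq_one K ℂ
    (RingOfIntegers.isIntegral_coe (u : 𝓞 K)) hunorm
  have hfin : IsOfFinOrder ((u : 𝓞 K) : K) := isOfFinOrder_iff_pow_eq_one.mpr ⟨n, hn, hun⟩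
  obtain ⟨r, -, hr⟩ := hζ.exists_pow_or_neg_mul_pow_of_isOfFinOrder htodd hfin
  have hκ : ∃ κ : 𝓞 K, (κ = 1 ∨ κ = -1) ∧ (u : 𝓞 K) = κ * x ^ r := by
    rcases hr with h | h
    · refine ⟨1, Or.inl rfl, ?_⟩
      apply RingOfIntegers.ext
      rw [one_mul]
      exact h
    · refine ⟨-1, Or.inr rfl, ?_⟩
      apply RingOfIntegers.ext
      rw [neg_one_mul]
      exact h
  obtain ⟨κ, hκ1, hκ2⟩ := hκ
  have hMM : M * M ≡ 0 [MOD t] := by
    obtain ⟨e, he⟩ := hdM
    rw [Nat.modEq_zero_iff_dvd]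
    refine ⟨e, ?_⟩
    rw [ht]
    nth_rewrite 2 [he]
    ring
  have hstep : ∀ j : ℕ, ∑ k ∈ range t, (z k : 𝓞 K) * (x ^ (1 + (j + 1) * M)) ^ k =
      (∑ k ∈ range t, (z k : 𝓞 K) * (x ^ (1 + j * M)) ^ k) * (κ * x ^ (r * (1 + j * M))) := by
    intro j
    obtain ⟨τ, hτ⟩ := exists_aut hζ (1 + j * M) (hcopM j)
    rw [← hxdef] at hτ
    have h1 : σ X = X * (κ * x ^ r) := by rw [← hu, hκ2]
    rw [hσX, hXdef] at h1
    have h2 := congrArg τ h1
    rw [map_mul, map_sum, map_sum] at h2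
    have hκτ : τ κ = κ := by
      rcases hκ1 with h | h <;> rw [h] <;> simp
    simp only [map_mul, map_pow, map_intCast, hτ, hκτ] at h2
    have h3 : (x ^ (1 + j * M)) ^ (1 + 1 * M) = x ^ (1 + (j + 1) * M) := by
      rw [← pow_mul]
      apply pow_eq_of_modEq hxt
      have h4 : (1 + j * M) * (1 + 1 * M) = 1 + (j + 1) * M + j * (M * M) := by ring
      rw [h4]
      have h5 : 1 + (j + 1) * M + j * (M * M) ≡ 1 + (j + 1) * M + j * 0 [MOD t] :=
        Nat.ModEq.add_left _ (Nat.ModEq.mul_left _ hMM)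
      rwa [mul_zero, add_zero] at h5
    rw [h3] at h2
    rw [h2, ← pow_mul, mul_comm (1 + j * M) r]
  obtain ⟨k₀, hk₀⟩ := descent_eq ht hdM htodd hx z hX0 κ hκ1 r hstep
  -- energy
  obtain ⟨φ⟩ : Nonempty (K →+* ℂ) := inferInstance
  set ψ := φ.comp (algebraMap (𝓞 K) K) with hψ
  have hinj : Function.Injective ψ := by
    rw [hψ]
    exact φ.injective.comp (RingOfIntegers.coe_injective)
  have hw : IsPrimitiveRoot (ψ x) t := hx.map_of_injective hinj
  have hww : ψ x * ψ (x ^ (t - 1)) = 1 := by rw [← map_mul, hxx, map_one]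
  refine energy ht ht0 hw hww z hz k₀ ?_
  intro j hj
  obtain ⟨τ, hτ⟩ := exists_aut hζ j hj
  rw [← hxdef] at hτ
  have h2 := congrArg (fun y => ψ (τ y)) hk₀
  simp only [map_sum, map_mul, map_pow, map_intCast, hτ] at h2
  rw [← h2]
  exact hns ψ j hj

end PartB3




section PartC1

open Finset

/-- No `Q_{4u²}`-developed Menon Hadamard matrix: there is no `±1` function `φ` on the dicyclic
group `Q_{4u²}` (Mathlib's `QuaternionGroup (u ^ 2)`, of order `4u²`) such that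
`M = [φ(gh)]` satisfies `M Mᵀ = 4u² I`. -/
def NoMenon (u : ℕ) : Prop :=
  ∀ _ : NeZero (u ^ 2), ¬ ∃ φ : QuaternionGroup (u ^ 2) → ℤ,
    (∀ g, φ g = 1 ∨ φ g = -1) ∧
    (Matrix.of (fun g h : QuaternionGroup (u ^ 2) => φ (g * h))) *
      Matrix.transpose (Matrix.of (fun g h : QuaternionGroup (u ^ 2) => φ (g * h))) =
      (4 * (u : ℤ) ^ 2) • (1 : Matrix (QuaternionGroup (u ^ 2)) (QuaternionGroup (u ^ 2)) ℤ)

lemma corr_of_matrix {n : ℕ} [NeZero n] (N : ℤ) (φ : QuaternionGroup n → ℤ)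
    (h : (Matrix.of (fun g h : QuaternionGroup n => φ (g * h))) *
      Matrix.transpose (Matrix.of (fun g h : QuaternionGroup n => φ (g * h))) =
      N • (1 : Matrix (QuaternionGroup n) (QuaternionGroup n) ℤ)) (g : QuaternionGroup n) :
    ∑ k, φ (g * k) * φ k = if g = 1 then N else 0 := by
  have h1 := congrFun (congrFun h g) 1
  rw [Matrix.mul_apply] at h1
  simp only [Matrix.of_apply, Matrix.transpose_apply, one_mul, Matrix.smul_apply,
    Matrix.one_apply, smul_eq_mul, mul_ite, mul_one, mul_zero] at h1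
  exact h1

lemma criterion_aux {t M d : ℕ} [NeZero t] (ht : t = M * d) (hdM : d ∣ M) (htodd : Odd t)
    (H : ∀ q : ℕ, q.Prime → q ∣ t → (∃ m : ℕ, q ^ m ≡ 1 + M [MOD ordCompl[q] t]) ∨
      ∃ m : ℕ, ordCompl[q] t ∣ q ^ m + 1)
    (φ : QuaternionGroup t → ℤ) (hφ : ∀ g, φ g = 1 ∨ φ g = -1)
    (hE : ∀ g, ∑ k, φ (g * k) * φ k = if g = 1 then 4 * (t : ℤ) else 0) :
    d * Nat.totient t ≤ t := by
  have hcyc : IsCyclotomicExtension {t} ℚ (CyclotomicField t ℚ) := by
    exact CyclotomicField.isCyclotomicExtension t ℚ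
  have hK := IsCyclotomicExtension.zeta_spec t ℚ (CyclotomicField t ℚ)
  have hx : IsPrimitiveRoot hK.toInteger t := hK.toInteger_isPrimitiveRoot
  have ht1 : 1 ≤ t := NeZero.pos t
  obtain ⟨z, hz, hzz⟩ := exists_z φ hφ hE hK.toInteger (hK.toInteger ^ (t - 1)) (by
    rw [← pow_succ', Nat.sub_add_cancel ht1, hx.pow_eq_one]) hx.pow_eq_one
  exact core ht hdM htodd H z hz hK hzz

/-- The criterion: field descent with a self-conjugacy alternative. -/
theorem criterion {u d : ℕ} (hu : Odd u) (hd : d ∣ u) (hlt : u ^ 2 < d * Nat.totient (u ^ 2))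
    (H : ∀ q : ℕ, q.Prime → q ∣ u → (∃ m : ℕ, q ^ m ≡ 1 + u ^ 2 / d [MOD ordCompl[q] (u ^ 2)]) ∨
      ∃ m : ℕ, ordCompl[q] (u ^ 2) ∣ q ^ m + 1) : NoMenon u := by
  intro hne
  rintro ⟨φ, hφ, hM⟩
  have hE : ∀ g, ∑ k, φ (g * k) * φ k = if g = 1 then 4 * ((u ^ 2 : ℕ) : ℤ) else 0 := by
    intro g
    rw [corr_of_matrix _ φ hM g]
    push_cast
    rfl
  obtain ⟨e, he⟩ := hd
  have hd0 : 0 < d := by
    rcases Nat.eq_zero_or_pos d with h | h
    · rw [h, zero_mul] at hlt; omega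
    · exact h
  have hdiv : u ^ 2 / d = d * e ^ 2 := by
    rw [he, mul_pow, sq d, mul_assoc, Nat.mul_div_cancel_left _ hd0]
  have htM : u ^ 2 = (u ^ 2 / d) * d := by
    rw [hdiv, he]; ring
  have hcore := criterion_aux htM (by rw [hdiv]; exact dvd_mul_right _ _) hu.pow
    (fun q hq hqt => H q hq (hq.dvd_of_dvd_pow hqt)) φ hφ hE
  omega

end PartC1




section PartC2

open Finset

lemma one_add_pow_modEq (y x : ℕ) : (1 + y) ^ x ≡ 1 + x * y [MOD y ^ 2] := by
  induction x with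
  | zero => simp [Nat.ModEq]
  | succ x ih =>
    rw [pow_succ]
    have h1 : (1 + y) ^ x * (1 + y) ≡ (1 + x * y) * (1 + y) [MOD y ^ 2] := Nat.ModEq.mul_right _ ih
    have h2 : (1 + x * y) * (1 + y) = 1 + (x + 1) * y + x * y ^ 2 := by ring
    rw [h2] at h1
    refine h1.trans ?_
    have h3 := Nat.ModEq.add_left (1 + (x + 1) * y)
      ((Nat.modEq_zero_iff_dvd).mpr (dvd_mul_left (y ^ 2) x))
    rwa [add_zero] at h3

lemma reach {p q k e rq s : ℕ} (hp : p.Prime) (hpo : Odd p) (hq : q.Prime) (hqp : q ≠ p)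
    (hcq : q.Coprime rq) (hrq : 0 < rq) (h2e : 2 * e ≤ k)
    (hW : ¬ p ^ (k - e + 1) ∣ q ^ (Nat.totient rq * (p - 1)) - 1) :
    ∃ m : ℕ, q ^ m ≡ 1 + p ^ (k - e) * s [MOD p ^ k] ∧ q ^ m ≡ 1 [MOD rq] := by
  have hfp : Fact p.Prime := ⟨hp⟩
  have hcqp : q.Coprime p := (Nat.coprime_primes hq hp).mpr hqp
  have hp1 : 0 < p - 1 := Nat.sub_pos_of_lt hp.one_lt
  set N0 := Nat.totient rq * (p - 1) with hN0
  have hN0pos : N0 ≠ 0 := Nat.mul_ne_zero (Nat.totient_pos.mpr hrq).ne' hp1.ne'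
  set B := q ^ N0 with hB
  have hB1 : 1 < B := Nat.one_lt_pow hN0pos hq.one_lt
  have hBp : B ≡ 1 [MOD p] := by
    have h1 := Nat.ModEq.pow_totient hcqp
    rw [Nat.totient_prime hp] at h1
    have h2 := h1.pow (Nat.totient rq)
    rw [one_pow, ← pow_mul, mul_comm (p - 1)] at h2
    exact h2
  have hBr : B ≡ 1 [MOD rq] := by
    have h1 := Nat.ModEq.pow_totient hcq
    have h2 := h1.pow (p - 1)
    rw [one_pow, ← pow_mul] at h2
    exact h2
  have hpB : p ∣ B - 1 := (Nat.modEq_iff_dvd' hB1.le).mp hBp.symm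
  have hpnB : ¬ p ∣ B := by
    intro h
    have := hp.dvd_of_dvd_pow h
    rw [Nat.prime_dvd_prime_iff_eq hp hq] at this
    exact hqp this.symm
  have hB0 : B - 1 ≠ 0 := Nat.sub_ne_zero_of_lt hB1
  set c := padicValNat p (B - 1) with hc
  have hck : c ≤ k - e := by
    by_contra hcon
    push Not at hcon
    apply hW
    exact (pow_dvd_pow p (Nat.succ_le_of_lt hcon)).trans pow_padicValNat_dvd
  have hv := padicValNat.pow_sub_pow hpo hB1 hpB hpnB (n := p ^ (k - e - c))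
    (pow_ne_zero _ hp.ne_zero)
  rw [one_pow, padicValNat.prime_pow, ← hc, Nat.add_sub_cancel' hck] at hv
  set C := B ^ (p ^ (k - e - c)) with hC
  have hC1 : 1 < C := Nat.one_lt_pow (pow_ne_zero _ hp.ne_zero) hB1
  have hC0 : C - 1 ≠ 0 := Nat.sub_ne_zero_of_lt hC1
  have hd : p ^ (k - e) ∣ C - 1 := by rw [← hv]; exact pow_padicValNat_dvd
  obtain ⟨w, hw⟩ := hd
  have hpw : ¬ p ∣ w := by
    rintro ⟨w', rfl⟩
    have h1 : p ^ (padicValNat p (C - 1) + 1) ∣ C - 1 := by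
      rw [hv, hw, pow_succ]
      exact mul_dvd_mul_left _ (dvd_mul_right _ _)
    exact pow_succ_padicValNat_not_dvd hC0 h1
  have hCw : C = 1 + p ^ (k - e) * w := by omega
  have hcw : w.Coprime (p ^ e) := by
    apply Nat.Coprime.pow_right
    exact ((Nat.Prime.coprime_iff_not_dvd hp).mpr hpw).symm
  obtain ⟨x, -, hx⟩ := Nat.exists_mul_mod_eq_of_coprime s hcw (pow_ne_zero e hp.ne_zero)
  have hx' : w * x ≡ s [MOD p ^ e] := hx
  have hke : k - e + e = k := by omega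
  refine ⟨N0 * p ^ (k - e - c) * x, ?_, ?_⟩
  · have h1 : q ^ (N0 * p ^ (k - e - c) * x) = C ^ x := by
      rw [hC, hB, ← pow_mul, ← pow_mul, mul_assoc]
    rw [h1]
    have h2 : C ^ x ≡ 1 + x * (p ^ (k - e) * w) [MOD (p ^ (k - e) * w) ^ 2] := by
      rw [hCw]; exact one_add_pow_modEq _ _
    have h3 : p ^ k ∣ (p ^ (k - e) * w) ^ 2 := by
      rw [mul_pow, ← pow_mul]
      exact dvd_mul_of_dvd_left (pow_dvd_pow p (by omega)) _
    refine (h2.of_dvd h3).trans ?_
    apply Nat.ModEq.add_left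
    have h4 := Nat.ModEq.mul_left' (p ^ (k - e)) hx'
    rw [← pow_add, hke] at h4
    have h5 : x * (p ^ (k - e) * w) = p ^ (k - e) * (w * x) := by ring
    rw [h5]
    exact h4
  · have h1 : q ^ (N0 * p ^ (k - e - c) * x) = B ^ (p ^ (k - e - c) * x) := by
      rw [hB, ← pow_mul, mul_assoc]
    rw [h1]
    have := hBr.pow (p ^ (k - e - c) * x)
    rwa [one_pow] at this

lemma wief {u p e q : ℕ} (hu : Odd u) (hp : p.Prime) (hpu : p ^ e ∣ u) (hpo : Odd p)
    (hq : q.Prime)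
    (hW : q ≠ p → ¬ p ^ (2 * u.factorization p - e + 1) ∣
      q ^ (Nat.totient (ordCompl[q] (ordCompl[p] (u ^ 2))) * (p - 1)) - 1) :
    ∃ m : ℕ, q ^ m ≡ 1 + u ^ 2 / p ^ e [MOD ordCompl[q] (u ^ 2)] := by
  have hu0 : u ≠ 0 := by rintro rfl; exact absurd hu (by decide)
  have hu20 : u ^ 2 ≠ 0 := pow_ne_zero 2 hu0
  have hea : e ≤ u.factorization p := (hp.pow_dvd_iff_le_factorization hu0).mp hpu
  have hfac : (u ^ 2).factorization p = 2 * u.factorization p := by simp [Nat.factorization_pow]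
  have hsplit : u ^ 2 = p ^ (2 * u.factorization p) * ordCompl[p] (u ^ 2) := by
    have := Nat.ordProj_mul_ordCompl_eq_self (u ^ 2) p
    rw [hfac] at this
    rw [hfac]
    exact this.symm
  set r := ordCompl[p] (u ^ 2) with hr
  set a := u.factorization p with ha
  have hr0 : 0 < r := Nat.ordCompl_pos p hu20
  have hquot : u ^ 2 / p ^ e = p ^ (2 * a - e) * r := by
    have h1 : u ^ 2 = p ^ e * (p ^ (2 * a - e) * r) := by
      rw [← mul_assoc, ← pow_add, show e + (2 * a - e) = 2 * a by omega]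
      exact hsplit
    rw [h1, Nat.mul_div_cancel_left _ (pow_pos hp.pos e)]
  by_cases hqp : q = p
  · subst hqp
    refine ⟨0, ?_⟩
    rw [pow_zero, hquot]
    have h1 := Nat.ModEq.add_left 1 ((Nat.modEq_zero_iff_dvd (n := r)).mpr
      (dvd_mul_left r (q ^ (2 * a - e))))
    exact h1.symm
  · have hcompl : ordCompl[q] (u ^ 2) = p ^ (2 * a) * ordCompl[q] r := by
      conv_lhs => rw [hsplit]
      rw [Nat.ordCompl_mul, (Nat.ordCompl_eq_self_iff_zero_or_not_dvd _ hq).mpr]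
      right
      intro h
      have := hq.dvd_of_dvd_pow h
      exact hqp ((Nat.prime_dvd_prime_iff_eq hq hp).mp this)
    rw [hcompl]
    have hrq0 : 0 < ordCompl[q] r := Nat.ordCompl_pos q hr0.ne'
    have hcq : q.Coprime (ordCompl[q] r) := Nat.coprime_ordCompl hq hr0.ne'
    obtain ⟨m, hm1, hm2⟩ := reach (s := r) hp hpo hq hqp hcq hrq0 (by omega : 2 * e ≤ 2 * a)
      (hW hqp)
    refine ⟨m, ?_⟩
    have hcop : (p ^ (2 * a)).Coprime (ordCompl[q] r) := by
      apply Nat.Coprime.pow_left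
      have h1 : p.Coprime r := Nat.coprime_ordCompl hp hu20
      exact Nat.Coprime.coprime_dvd_right (Nat.ordCompl_dvd r q) h1
    rw [← Nat.modEq_and_modEq_iff_modEq_mul hcop, hquot]
    refine ⟨hm1, hm2.trans ?_⟩
    have h1 := Nat.ModEq.add_left 1 ((Nat.modEq_zero_iff_dvd (n := ordCompl[q] r)).mpr
      ((Nat.ordCompl_dvd r q).mul_left (p ^ (2 * a - e))))
    rw [add_zero] at h1
    exact h1.symm

/-- `∏ r ≤ p ∏ (r-1)` over odd numbers `3 ≤ r ≤ p`. -/
lemma prod_odd (m : ℕ) : ∀ S : Finset ℕ, (∀ r ∈ S, Odd r ∧ 3 ≤ r ∧ r ≤ 2 * m + 1) →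
    ∏ r ∈ S, r ≤ (2 * m + 1) * ∏ r ∈ S, (r - 1) ∧
    (2 * m + 1 ∈ S → ∏ r ∈ S, r < (2 * m + 1) * ∏ r ∈ S, (r - 1)) := by
  induction m with
  | zero =>
    intro S hS
    have : S = ∅ := by
      rw [Finset.eq_empty_iff_forall_notMem]
      intro r hr
      have := hS r hr
      omega
    subst this
    simp
  | succ m ih =>
    intro S hS
    have hpos : 0 < ∏ r ∈ S, (r - 1) := Finset.prod_pos fun r hr => by
      have := (hS r hr).2.1; omega
    by_cases h : 2 * (m + 1) + 1 ∈ S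
    · have hlt : ∏ r ∈ S, r < (2 * (m + 1) + 1) * ∏ r ∈ S, (r - 1) := by
        have h1 := (ih (S.erase (2 * (m + 1) + 1)) (fun r hr => by
          rw [Finset.mem_erase] at hr
          obtain ⟨⟨k, hk⟩, h2, h3⟩ := hS r hr.2
          refine ⟨⟨k, hk⟩, h2, ?_⟩
          have := hr.1
          omega)).1
        have hpos' : 0 < ∏ r ∈ S.erase (2 * (m + 1) + 1), (r - 1) :=
          Finset.prod_pos fun r hr => by
            have := (hS r (Finset.mem_of_mem_erase hr)).2.1; omega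
        rw [← Finset.mul_prod_erase S (fun r => r) h, ← Finset.mul_prod_erase S (fun r => r - 1) h]
        have h2 : 2 * (m + 1) + 1 - 1 = 2 * m + 2 := by omega
        rw [h2]
        have h3 : ∏ r ∈ S.erase (2 * (m + 1) + 1), r <
            (2 * m + 2) * ∏ r ∈ S.erase (2 * (m + 1) + 1), (r - 1) := by
          refine lt_of_le_of_lt h1 ?_
          exact Nat.mul_lt_mul_of_pos_right (by omega) hpos'
        exact Nat.mul_lt_mul_of_pos_left h3 (by omega)
      exact ⟨hlt.le, fun _ => hlt⟩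
    · refine ⟨?_, fun h' => absurd h' h⟩
      have h1 := (ih S (fun r hr => by
        obtain ⟨⟨k, hk⟩, h2, h3⟩ := hS r hr
        refine ⟨⟨k, hk⟩, h2, ?_⟩
        have : r ≠ 2 * (m + 1) + 1 := fun he => h (he ▸ hr)
        omega)).1
      refine h1.trans ?_
      exact Nat.mul_le_mul_right _ (by omega)

lemma lt_of_prod_lt {t d : ℕ} (ht : t ≠ 0)
    (h : ∏ r ∈ t.primeFactors, r < d * ∏ r ∈ t.primeFactors, (r - 1)) :
    t < d * Nat.totient t := by
  have h1 := Nat.totient_mul_prod_primeFactors t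
  have hφ : 0 < Nat.totient t := Nat.totient_pos.mpr (Nat.pos_of_ne_zero ht)
  have h2 : t * ∏ r ∈ t.primeFactors, (r - 1) <
      (d * Nat.totient t) * ∏ r ∈ t.primeFactors, (r - 1) := by
    rw [← h1]
    calc Nat.totient t * ∏ r ∈ t.primeFactors, r
        < Nat.totient t * (d * ∏ r ∈ t.primeFactors, (r - 1)) :=
          Nat.mul_lt_mul_of_pos_left h hφ
      _ = _ := by ring
  exact lt_of_mul_lt_mul_right h2 (Nat.zero_le _)

/-- `u² < p φ(u²)` for the largest prime factor `p` of the odd number `u`. -/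
lemma largest_lt {u p : ℕ} (hu : Odd u) (hp : p.Prime) (hpu : p ∣ u)
    (hmax : ∀ q : ℕ, q.Prime → q ∣ u → q ≤ p) : u ^ 2 < p * Nat.totient (u ^ 2) := by
  have hu0 : u ≠ 0 := by rintro rfl; exact absurd hu (by decide)
  apply lt_of_prod_lt (pow_ne_zero 2 hu0)
  rw [Nat.primeFactors_pow u two_ne_zero]
  have hpo : Odd p := Odd.of_dvd_nat hu hpu
  obtain ⟨m, hm⟩ := hpo
  have := (prod_odd m u.primeFactors (fun r hr => by
    have hr' := Nat.prime_of_mem_primeFactors hr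
    have hro : Odd r := Odd.of_dvd_nat hu (Nat.dvd_of_mem_primeFactors hr)
    refine ⟨hro, ?_, ?_⟩
    · have := hr'.two_le
      rcases hro with ⟨k, hk⟩
      omega
    · rw [← hm]; exact hmax r hr' (Nat.dvd_of_mem_primeFactors hr))).2
    (by rw [← hm]; exact (Nat.mem_primeFactors_of_ne_zero hu0).mpr ⟨hp, hpu⟩)
  rw [hm]
  exact this

end PartC2




section PartC3

open Finset

lemma val_pow {p q N : ℕ} (hp : p.Prime) (hpo : Odd p) (hq : q.Prime) (hqp : q ≠ p) (hN : N ≠ 0) :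
    padicValNat p (q ^ (N * (p - 1)) - 1) = padicValNat p (q ^ (p - 1) - 1) + padicValNat p N := by
  have hfp : Fact p.Prime := ⟨hp⟩
  have hcqp : q.Coprime p := (Nat.coprime_primes hq hp).mpr hqp
  have hp1 : p - 1 ≠ 0 := (Nat.sub_pos_of_lt hp.one_lt).ne'
  have hB1 : 1 < q ^ (p - 1) := Nat.one_lt_pow hp1 hq.one_lt
  have hBp : q ^ (p - 1) ≡ 1 [MOD p] := by
    have h1 := Nat.ModEq.pow_totient hcqp
    rwa [Nat.totient_prime hp] at h1
  have hpB : p ∣ q ^ (p - 1) - 1 := (Nat.modEq_iff_dvd' hB1.le).mp hBp.symm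
  have hpnB : ¬ p ∣ q ^ (p - 1) := by
    intro h
    have := hp.dvd_of_dvd_pow h
    rw [Nat.prime_dvd_prime_iff_eq hp hq] at this
    exact hqp this.symm
  have hv := padicValNat.pow_sub_pow hpo hB1 hpB hpnB hN
  rw [one_pow, ← pow_mul, mul_comm (p - 1)] at hv
  exact hv

lemma not_dvd_iff_val {p n j : ℕ} (hp : p.Prime) (hn : n ≠ 0) :
    ¬ p ^ j ∣ n ↔ padicValNat p n < j := by
  have hfp : Fact p.Prime := ⟨hp⟩
  rw [padicValNat_dvd_iff_le hn, not_le]

lemma pow_sub_one_ne {q k : ℕ} (hq : q.Prime) (hk : k ≠ 0) : q ^ k - 1 ≠ 0 :=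
  Nat.sub_ne_zero_of_lt (Nat.one_lt_pow hk hq.one_lt)

/-- the `p`-adic valuation of `φ(n)` when `p ∤ n` -/
lemma val_totient {p n : ℕ} (hp : p.Prime) (hn : n ≠ 0) (hpn : ¬ p ∣ n) :
    padicValNat p (Nat.totient n) ≤ ∑ r ∈ n.primeFactors, padicValNat p (r - 1) := by
  have hfp : Fact p.Prime := ⟨hp⟩
  have h1 := Nat.totient_mul_prod_primeFactors n
  have hφ : Nat.totient n ≠ 0 := (Nat.totient_pos.mpr (Nat.pos_of_ne_zero hn)).ne'
  have hP : ∏ r ∈ n.primeFactors, r ≠ 0 :=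
    Finset.prod_ne_zero_iff.mpr fun r hr => (Nat.prime_of_mem_primeFactors hr).ne_zero
  have hQ' : ∀ r ∈ n.primeFactors, r - 1 ≠ 0 := fun r hr =>
    (Nat.sub_pos_of_lt (Nat.prime_of_mem_primeFactors hr).one_lt).ne'
  have hQ : ∏ r ∈ n.primeFactors, (r - 1) ≠ 0 := Finset.prod_ne_zero_iff.mpr hQ'
  have h2 := congrArg (padicValNat p) h1
  rw [padicValNat.mul hφ hP, padicValNat.mul hn hQ, padicValNat.eq_zero_of_not_dvd hpn,
    zero_add] at h2
  have h3 : padicValNat p (∏ r ∈ n.primeFactors, (r - 1)) =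
      ∑ r ∈ n.primeFactors, padicValNat p (r - 1) := by
    rw [← Nat.factorization_def _ hp, Nat.factorization_prod hQ', Finsupp.finsetSum_apply]
    exact sum_congr rfl fun r _ => Nat.factorization_def _ hp
  omega

/-- Corollary for the largest prime factor. -/
theorem largest {u p : ℕ} (hu : Odd u) (hp : p.Prime) (hpu : p ∣ u)
    (hmax : ∀ q : ℕ, q.Prime → q ∣ u → q ≤ p)
    (H : ∀ q : ℕ, q.Prime → q ∣ u → q ≠ p →
      (¬ p ^ (2 * u.factorization p) ∣ q ^ (p - 1) - 1) ∨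
      ∃ m : ℕ, ordCompl[q] (u ^ 2) ∣ q ^ m + 1) : NoMenon u := by
  have hu0 : u ≠ 0 := by rintro rfl; exact absurd hu (by decide)
  have hu20 : u ^ 2 ≠ 0 := pow_ne_zero 2 hu0
  have hpo : Odd p := Odd.of_dvd_nat hu hpu
  have ha1 : 1 ≤ u.factorization p := by
    have := (hp.pow_dvd_iff_le_factorization hu0 (k := 1)).mp (by rwa [pow_one])
    exact this
  apply criterion hu hpu (largest_lt hu hp hpu hmax)
  intro q hq hqu
  by_cases hqp : q = p
  · left
    have := wief (e := 1) hu hp (by rwa [pow_one]) hpo hq (fun h => absurd hqp h)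
    rwa [pow_one] at this
  · rcases H q hq hqu hqp with h | h
    · left
      have := wief (e := 1) hu hp (by rwa [pow_one]) hpo hq (fun _ => by
        set r := ordCompl[p] (u ^ 2) with hr
        have hr0 : r ≠ 0 := (Nat.ordCompl_pos p hu20).ne'
        set rq := ordCompl[q] r with hrq
        have hrq0 : rq ≠ 0 := (Nat.ordCompl_pos q hr0).ne'
        have hprq : ¬ p ∣ rq := fun hd =>
          Nat.not_dvd_ordCompl hp hu20 (hd.trans (Nat.ordCompl_dvd r q))
        have hφ0 : Nat.totient rq ≠ 0 := (Nat.totient_pos.mpr (Nat.pos_of_ne_zero hrq0)).ne'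
        have hv := val_totient hp hrq0 hprq
        have hz : ∑ s ∈ rq.primeFactors, padicValNat p (s - 1) = 0 := by
          refine sum_eq_zero fun s hs => ?_
          apply padicValNat.eq_zero_of_not_dvd
          intro hd
          have hsp := Nat.prime_of_mem_primeFactors hs
          have hsu : s ∣ u := hsp.dvd_of_dvd_pow ((Nat.dvd_of_mem_primeFactors hs).trans
            ((Nat.ordCompl_dvd r q).trans (Nat.ordCompl_dvd (u ^ 2) p)))
          have h1 := hmax s hsp hsu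
          have h2 := Nat.le_of_dvd (Nat.sub_pos_of_lt hsp.one_lt) hd
          have h3 := hsp.one_lt
          omega
        have hp1 : p - 1 ≠ 0 := (Nat.sub_pos_of_lt hp.one_lt).ne'
        rw [not_dvd_iff_val hp (pow_sub_one_ne hq (Nat.mul_ne_zero hφ0 hp1)),
          val_pow hp hpo hq hqp hφ0]
        rw [not_dvd_iff_val hp (pow_sub_one_ne hq hp1)] at h
        omega)
      rwa [pow_one] at this
    · right; exact h

/-- If `q` has even order modulo `p` then `-1` is a power of `q` modulo every power of `p`. -/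
lemma self_conj {p q : ℕ} (hp : p.Prime) (hpo : Odd p) (hq : ¬ p ∣ q) (k : ℕ)
    (heven : Even (orderOf (q : ZMod p))) : ∃ m : ℕ, p ^ k ∣ q ^ m + 1 := by
  have hfp : Fact p.Prime := ⟨hp⟩
  obtain ⟨h, hh⟩ := heven
  have hq0 : (q : ZMod p) ≠ 0 := by
    rw [Ne, ZMod.natCast_eq_zero_iff]; exact hq
  have hopos : 0 < orderOf (q : ZMod p) := by
    apply orderOf_pos_iff.mpr
    rw [isOfFinOrder_iff_pow_eq_one]
    exact ⟨p - 1, Nat.sub_pos_of_lt hp.one_lt, ZMod.pow_card_sub_one_eq_one hq0⟩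
  have h1 : ((q : ZMod p) ^ h) ^ 2 = 1 := by
    rw [← pow_mul, mul_two, ← hh, pow_orderOf_eq_one]
  have h2 : (q : ZMod p) ^ h ≠ 1 := by
    intro h3
    have := orderOf_dvd_of_pow_eq_one h3
    have := Nat.le_of_dvd (by omega) this
    omega
  have h3 : (q : ZMod p) ^ h = -1 := by
    rw [sq] at h1
    rcases mul_self_eq_one_iff.mp h1 with h4 | h4
    · exact absurd h4 h2
    · exact h4
  have h4 : (p : ℤ) ∣ ((q : ℤ) ^ h) - (-1) := by
    rw [← ZMod.intCast_zmod_eq_zero_iff_dvd]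
    push_cast
    rw [h3]; ring
  have h5 := dvd_sub_pow_of_dvd_sub (R := ℤ) h4 k
  rw [Odd.neg_one_pow (hpo.pow), sub_neg_eq_add, ← pow_mul] at h5
  refine ⟨h * p ^ k, ?_⟩
  have h6 : ((p ^ (k + 1) : ℕ) : ℤ) ∣ ((q ^ (h * p ^ k) + 1 : ℕ) : ℤ) := by
    push_cast
    exact h5
  exact (pow_dvd_pow p (Nat.le_succ k)).trans (Int.natCast_dvd_natCast.mp h6)

/-- Corollary for two prime factors. -/
theorem two_primes {p q a b : ℕ} (hp : p.Prime) (hpo : Odd p) (hq : q.Prime) (hqo : Odd q)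
    (hpq : p ≠ q) (ha : 1 ≤ a) (hb : 1 ≤ b)
    (H : ¬ p ^ (2 * a) ∣ q ^ (p - 1) - 1 ∨ Even (orderOf (q : ZMod p))) :
    NoMenon (p ^ a * q ^ b) := by
  set u := p ^ a * q ^ b with hu
  have huo : Odd u := (hpo.pow).mul (hqo.pow)
  have hu0 : u ≠ 0 := by rw [hu]; exact Nat.mul_ne_zero (pow_ne_zero _ hp.ne_zero) (pow_ne_zero _ hq.ne_zero)
  have hu20 : u ^ 2 ≠ 0 := pow_ne_zero 2 hu0
  have hpu : p ∣ u := (dvd_pow_self p (by omega)).mul_right _
  have hqp : q ≠ p := fun h => hpq h.symm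
  have hfp : u.factorization p = a := by
    rw [hu, Nat.factorization_mul (pow_ne_zero _ hp.ne_zero) (pow_ne_zero _ hq.ne_zero),
      Finsupp.add_apply, Nat.factorization_pow_self hp]
    have : (q ^ b).factorization p = 0 := by
      apply Nat.factorization_eq_zero_of_not_dvd
      intro h
      have := hp.dvd_of_dvd_pow h
      exact hpq ((Nat.prime_dvd_prime_iff_eq hp hq).mp this)
    omega
  have hpf : u.primeFactors = {p, q} := by
    rw [hu, Nat.primeFactors_mul (pow_ne_zero _ hp.ne_zero) (pow_ne_zero _ hq.ne_zero),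
      Nat.primeFactors_prime_pow (by omega) hp, Nat.primeFactors_prime_pow (by omega) hq]
    rfl
  -- ordCompl computations
  have hsq : u ^ 2 = p ^ (2 * a) * q ^ (2 * b) := by rw [hu]; ring
  have hr : ordCompl[p] (u ^ 2) = q ^ (2 * b) := by
    rw [hsq, Nat.ordCompl_self_pow_mul _ _ hp]
    apply (Nat.ordCompl_eq_self_iff_zero_or_not_dvd _ hp).mpr
    right
    intro h
    exact hpq ((Nat.prime_dvd_prime_iff_eq hp hq).mp (hp.dvd_of_dvd_pow h))
  have hr2 : ordCompl[q] (u ^ 2) = p ^ (2 * a) := by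
    rw [hsq, mul_comm, Nat.ordCompl_self_pow_mul _ _ hq]
    apply (Nat.ordCompl_eq_self_iff_zero_or_not_dvd _ hq).mpr
    right
    intro h
    exact hqp ((Nat.prime_dvd_prime_iff_eq hq hp).mp (hq.dvd_of_dvd_pow h))
  have hp3 : 3 ≤ p := by
    have := hp.two_le
    rcases hpo with ⟨k, hk⟩
    omega
  have hq3 : 3 ≤ q := by
    have := hq.two_le
    rcases hqo with ⟨k, hk⟩
    omega
  have hlt : u ^ 2 < p * Nat.totient (u ^ 2) := by
    apply lt_of_prod_lt hu20
    rw [Nat.primeFactors_pow u two_ne_zero, hpf, prod_pair hpq, prod_pair hpq]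
    obtain ⟨p', rfl⟩ : ∃ p', p = p' + 3 := ⟨p - 3, by omega⟩
    obtain ⟨q', rfl⟩ : ∃ q', q = q' + 3 := ⟨q - 3, by omega⟩
    have e1 : p' + 3 - 1 = p' + 2 := by omega
    have e2 : q' + 3 - 1 = q' + 2 := by omega
    rw [e1, e2]
    nlinarith [Nat.zero_le (p' * q'), Nat.zero_le p', Nat.zero_le q',
      Nat.zero_le (p' * p' * q'), Nat.zero_le (p' * p')]
  apply criterion huo hpu hlt
  intro s hs hsu
  have hs' : s = p ∨ s = q := by
    have : s ∈ u.primeFactors := (Nat.mem_primeFactors_of_ne_zero hu0).mpr ⟨hs, hsu⟩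
    rw [hpf] at this
    simpa using this
  rcases hs' with rfl | rfl
  · left
    have := wief (e := 1) huo hs (by rwa [pow_one]) hpo hs (fun h => absurd rfl h)
    rwa [pow_one] at this
  · rcases H with h | h
    · left
      have := wief (e := 1) huo hp (by rwa [pow_one]) hpo hs (fun _ => by
        rw [hr, Nat.ordCompl_self_pow hs, Nat.totient_one, one_mul, hfp,
          show 2 * a - 1 + 1 = 2 * a by omega]
        exact h)
      rwa [pow_one] at this
    · right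
      rw [hr2]
      exact self_conj hp hpo (fun hd => hpq ((Nat.prime_dvd_prime_iff_eq hp hs).mp hd)) _ h

/-- Odd prime powers. -/
theorem prime_power {p a : ℕ} (hp : p.Prime) (hpo : Odd p) (ha : 1 ≤ a) : NoMenon (p ^ a) := by
  apply largest (hpo.pow) hp (dvd_pow_self p (by omega))
  · intro q hq hqu
    have := hq.dvd_of_dvd_pow hqu
    exact ((Nat.prime_dvd_prime_iff_eq hq hp).mp this).le
  · intro q hq hqu hqp
    have := hq.dvd_of_dvd_pow hqu
    exact absurd ((Nat.prime_dvd_prime_iff_eq hq hp).mp this) hqp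

lemma large_exponent (P : Finset ℕ) {u p : ℕ} (hu : Odd u) (hP : u.primeFactors ⊆ P)
    (hp : p.Prime) (hpu : p ∣ u)
    (hN : P.card + (∑ p ∈ P, ∑ q ∈ P, padicValNat p (q ^ (p - 1) - 1) +
      ∑ p ∈ P, ∑ r ∈ P, padicValNat p (r - 1)) + 1 ≤ u.factorization p) : NoMenon u := by
  have hu0 : u ≠ 0 := by rintro rfl; exact absurd hu (by decide)
  have hu20 : u ^ 2 ≠ 0 := pow_ne_zero 2 hu0
  have hpo : Odd p := Odd.of_dvd_nat hu hpu
  have hpP : p ∈ P := hP ((Nat.mem_primeFactors_of_ne_zero hu0).mpr ⟨hp, hpu⟩)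
  have he : 1 ≤ P.card := Finset.card_pos.mpr ⟨p, hpP⟩
  set e := P.card with hedef
  set a := u.factorization p with ha
  have hdvd : p ^ e ∣ u := (hp.pow_dvd_iff_le_factorization hu0).mpr (by omega)
  have hp3 : 3 ≤ p := by
    have := hp.two_le
    rcases hpo with ⟨k, hk⟩
    omega
  apply criterion hu hdvd
  · apply lt_of_prod_lt hu20
    rw [Nat.primeFactors_pow u two_ne_zero]
    have h1 : ∏ r ∈ u.primeFactors, r ≤ ∏ r ∈ u.primeFactors, (2 * (r - 1)) := by
      apply Finset.prod_le_prod'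
      intro r hr
      have := (Nat.prime_of_mem_primeFactors hr).two_le
      omega
    have hpos : 0 < ∏ r ∈ u.primeFactors, (r - 1) := Finset.prod_pos fun r hr =>
      Nat.sub_pos_of_lt (Nat.prime_of_mem_primeFactors hr).one_lt
    refine lt_of_le_of_lt h1 ?_
    rw [Finset.prod_mul_distrib, Finset.prod_const]
    apply Nat.mul_lt_mul_of_pos_right _ hpos
    calc 2 ^ u.primeFactors.card ≤ 2 ^ e := Nat.pow_le_pow_right (by norm_num) (Finset.card_le_card hP)
      _ < 3 ^ e := Nat.pow_lt_pow_left (by norm_num) (by omega)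
      _ ≤ p ^ e := Nat.pow_le_pow_left hp3 e
  · intro q hq hqu
    left
    apply wief hu hp hdvd hpo hq
    intro hqp
    have hqP : q ∈ P := hP ((Nat.mem_primeFactors_of_ne_zero hu0).mpr ⟨hq, hqu⟩)
    set r := ordCompl[p] (u ^ 2) with hr
    have hr0 : r ≠ 0 := (Nat.ordCompl_pos p hu20).ne'
    set rq := ordCompl[q] r with hrq
    have hrq0 : rq ≠ 0 := (Nat.ordCompl_pos q hr0).ne'
    have hprq : ¬ p ∣ rq := fun hd =>
      Nat.not_dvd_ordCompl hp hu20 (hd.trans (Nat.ordCompl_dvd r q))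
    have hφ0 : Nat.totient rq ≠ 0 := (Nat.totient_pos.mpr (Nat.pos_of_ne_zero hrq0)).ne'
    have hv := val_totient hp hrq0 hprq
    have hz : ∑ s ∈ rq.primeFactors, padicValNat p (s - 1) ≤ ∑ s ∈ P, padicValNat p (s - 1) := by
      apply Finset.sum_le_sum_of_subset
      intro s hs
      have hsp := Nat.prime_of_mem_primeFactors hs
      have hsu : s ∣ u := hsp.dvd_of_dvd_pow ((Nat.dvd_of_mem_primeFactors hs).trans
        ((Nat.ordCompl_dvd r q).trans (Nat.ordCompl_dvd (u ^ 2) p)))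
      exact hP ((Nat.mem_primeFactors_of_ne_zero hu0).mpr ⟨hsp, hsu⟩)
    have hp1 : p - 1 ≠ 0 := (Nat.sub_pos_of_lt hp.one_lt).ne'
    have h1 : padicValNat p (q ^ (p - 1) - 1) ≤
        ∑ p ∈ P, ∑ q ∈ P, padicValNat p (q ^ (p - 1) - 1) := by
      calc padicValNat p (q ^ (p - 1) - 1)
          ≤ ∑ q ∈ P, padicValNat p (q ^ (p - 1) - 1) :=
            Finset.single_le_sum (f := fun q => padicValNat p (q ^ (p - 1) - 1))
              (fun _ _ => Nat.zero_le _) hqP
        _ ≤ _ := Finset.single_le_sum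
              (f := fun p => ∑ q ∈ P, padicValNat p (q ^ (p - 1) - 1))
              (fun _ _ => Nat.zero_le _) hpP
    have h2 : ∑ s ∈ P, padicValNat p (s - 1) ≤ ∑ p ∈ P, ∑ r ∈ P, padicValNat p (r - 1) :=
      Finset.single_le_sum (f := fun p => ∑ r ∈ P, padicValNat p (r - 1))
              (fun _ _ => Nat.zero_le _) hpP
    rw [not_dvd_iff_val hp (pow_sub_one_ne hq (Nat.mul_ne_zero hφ0 hp1)),
      val_pow hp hpo hq hqp hφ0]
    omega

/-- Asymptotic nonexistence: for a finite set `P` of primes, only finitely many exceptions. -/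
theorem asymptotic (P : Finset ℕ) :
    {u : ℕ | Odd u ∧ u.primeFactors ⊆ P ∧ ¬ NoMenon u}.Finite := by
  set N := P.card + (∑ p ∈ P, ∑ q ∈ P, padicValNat p (q ^ (p - 1) - 1) +
      ∑ p ∈ P, ∑ r ∈ P, padicValNat p (r - 1)) + 1 with hN
  have hM : (∏ p ∈ P.filter Nat.Prime, p ^ N) ≠ 0 :=
    Finset.prod_ne_zero_iff.mpr fun r hr => pow_ne_zero _ (Finset.mem_filter.mp hr).2.ne_zero
  apply Set.Finite.subset (Nat.divisors (∏ p ∈ P.filter Nat.Prime, p ^ N)).finite_toSet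
  rintro u ⟨hu, hP, hno⟩
  have hu0 : u ≠ 0 := by rintro rfl; exact absurd hu (by decide)
  rw [Finset.mem_coe, Nat.mem_divisors]
  refine ⟨?_, hM⟩
  have h1 : ∀ p ∈ u.primeFactors, u.factorization p ≤ N := by
    intro p hp
    by_contra hcon
    push Not at hcon
    exact hno (large_exponent P hu hP (Nat.prime_of_mem_primeFactors hp)
      (Nat.dvd_of_mem_primeFactors hp) hcon.le)
  have h2 : u = ∏ p ∈ u.primeFactors, p ^ u.factorization p :=
    (Nat.prod_factorization_pow_eq_self hu0).symm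
  rw [h2]
  refine (Finset.prod_dvd_prod_of_dvd _ (fun p => p ^ N) fun p hp =>
    pow_dvd_pow p (h1 p hp)).trans ?_
  apply Finset.prod_dvd_prod_of_subset
  intro p hp
  exact Finset.mem_filter.mpr ⟨hP hp, Nat.prime_of_mem_primeFactors hp⟩

end PartC3




section PartC4

open Finset

/-- strip the factors `q` from `n` -/
def strip : ℕ → ℕ → ℕ → ℕ
  | 0, _, n => n
  | f + 1, q, n => if n % q = 0 then strip f q (n / q) else n

lemma strip_spec (q : ℕ) (f : ℕ) : ∀ n : ℕ, ∃ j : ℕ, n = q ^ j * strip f q n := by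
  induction f with
  | zero => intro n; exact ⟨0, by simp [strip]⟩
  | succ f ih =>
    intro n
    by_cases h : n % q = 0
    · obtain ⟨j, hj⟩ := ih (n / q)
      refine ⟨j + 1, ?_⟩
      rw [strip, if_pos h, pow_succ', mul_assoc, ← hj]
      exact (Nat.mul_div_cancel' (Nat.dvd_of_mod_eq_zero h)).symm
    · exact ⟨0, by rw [strip, if_neg h]; simp⟩

/-- list of primes used in the certificates -/
def primesL : List ℕ := [3, 5, 7, 11, 13, 19, 31, 43, 53, 59, 71, 79, 97, 103, 137, 863]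

lemma primesL_prime : ∀ s ∈ primesL, s.Prime := by
  intro s hs
  simp only [primesL, List.mem_cons, List.not_mem_nil, or_false] at hs
  rcases hs with rfl | rfl | rfl | rfl | rfl | rfl | rfl | rfl | rfl | rfl | rfl | rfl | rfl | rfl | rfl | rfl <;> norm_num

/-- certificate check -/
def chk (u d : ℕ) (Q : List (ℕ × ℕ × ℕ)) : Bool :=
  decide (u % 2 = 1) && decide (u % d = 0) && decide ((Q.map (fun x => x.1)).Nodup) &&
  Q.all (fun x => decide (x.1 ∈ primesL) && decide (u % x.1 = 0)) &&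
  decide (((Q.map (fun x => x.1)).prod ^ 9) % u = 0) &&
  decide ((Q.map (fun x => x.1)).prod < d * (Q.map (fun x => x.1 - 1)).prod) &&
  Q.all (fun x => decide (strip 20 x.1 (u ^ 2) % x.1 ≠ 0) &&
    (if x.2.2 = 0 then decide (x.1 ^ x.2.1 % strip 20 x.1 (u ^ 2) =
      (1 + u ^ 2 / d) % strip 20 x.1 (u ^ 2))
    else decide ((x.1 ^ x.2.1 + 1) % strip 20 x.1 (u ^ 2) = 0)))

lemma cert (u d : ℕ) (Q : List (ℕ × ℕ × ℕ)) (h : chk u d Q = true) : NoMenon u := by
  simp only [chk, Bool.and_eq_true, decide_eq_true_eq, List.all_eq_true] at h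
  obtain ⟨⟨⟨⟨⟨⟨h1, h2⟩, h3⟩, h4⟩, h5⟩, h6⟩, h7⟩ := h
  have hu : Odd u := Nat.odd_iff.mpr h1
  have hu0 : u ≠ 0 := by rintro rfl; exact absurd hu (by decide)
  have hd : d ∣ u := Nat.dvd_of_mod_eq_zero h2
  have hpf : u.primeFactors = (Q.map (fun x => x.1)).toFinset := by
    ext q
    rw [Nat.mem_primeFactors_of_ne_zero hu0, List.mem_toFinset, List.mem_map]
    constructor
    · rintro ⟨hq, hqu⟩
      have h8 : q ∣ (Q.map (fun x => x.1)).prod ^ 9 := hqu.trans (Nat.dvd_of_mod_eq_zero h5)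
      have h9 := hq.dvd_of_dvd_pow h8
      rw [Prime.dvd_prod_iff hq.prime] at h9
      obtain ⟨s, hs, hqs⟩ := h9
      obtain ⟨x, hx, rfl⟩ := List.mem_map.mp hs
      have hp := primesL_prime x.1 (h4 x hx).1
      exact ⟨x, hx, ((Nat.prime_dvd_prime_iff_eq hq hp).mp hqs).symm⟩
    · rintro ⟨x, hx, rfl⟩
      exact ⟨primesL_prime x.1 (h4 x hx).1, Nat.dvd_of_mod_eq_zero (h4 x hx).2⟩
  have hlt : u ^ 2 < d * Nat.totient (u ^ 2) := by
    apply lt_of_prod_lt (pow_ne_zero 2 hu0)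
    rw [Nat.primeFactors_pow u two_ne_zero, hpf, List.prod_toFinset _ h3, List.prod_toFinset _ h3,
      List.map_map, List.map_map]
    exact h6
  apply criterion hu hd hlt
  intro q hq hqu
  have hmem : q ∈ u.primeFactors := (Nat.mem_primeFactors_of_ne_zero hu0).mpr ⟨hq, hqu⟩
  rw [hpf, List.mem_toFinset, List.mem_map] at hmem
  obtain ⟨x, hx, rfl⟩ := hmem
  have h8 := h7 x hx
  obtain ⟨j, hj⟩ := strip_spec x.1 20 (u ^ 2)
  have hcompl : ordCompl[x.1] (u ^ 2) = strip 20 x.1 (u ^ 2) := by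
    conv_lhs => rw [hj]
    exact Nat.ordCompl_pow_mul_of_not_dvd j hq (fun hd => h8.1 (Nat.mod_eq_zero_of_dvd hd))
  rw [hcompl]
  by_cases hk : x.2.2 = 0
  · left
    refine ⟨x.2.1, ?_⟩
    have h9 := h8.2
    rw [if_pos hk, decide_eq_true_eq] at h9
    exact h9
  · right
    refine ⟨x.2.1, ?_⟩
    have h9 := h8.2
    rw [if_neg hk, decide_eq_true_eq] at h9
    exact Nat.dvd_of_mod_eq_zero h9

/-- the certificates for the values of `u` not covered by the largest prime factor -/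
def certs : List (ℕ × ℕ × List (ℕ × ℕ × ℕ)) := [
  (33, 3, [(3, 0, 0), (11, 2, 0)]),
  (99, 3, [(3, 0, 0), (11, 18, 0)]),
  (165, 3, [(3, 0, 0), (5, 220, 0), (11, 20, 0)]),
  (231, 7, [(3, 60, 0), (7, 0, 0), (11, 12, 0)]),
  (297, 3, [(3, 0, 0), (11, 162, 0)]),
  (495, 3, [(3, 0, 0), (5, 1980, 0), (11, 180, 0)]),
  (693, 7, [(3, 120, 0), (7, 0, 0), (11, 108, 0)]),
  (781, 71, [(11, 35, 1), (71, 0, 0)]),
  (817, 43, [(19, 21, 1), (43, 0, 0)]),
  (825, 5, [(3, 400, 0), (5, 0, 0), (11, 300, 0)]),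
  (891, 3, [(3, 0, 0), (11, 1458, 0)]),
  (1155, 7, [(3, 240, 0), (5, 660, 0), (7, 0, 0), (11, 90, 0)]),
  (1485, 3, [(3, 0, 0), (5, 17820, 0), (11, 1620, 0)]),
  (1617, 7, [(3, 2940, 0), (7, 0, 0), (11, 588, 0)]),
  (2079, 7, [(3, 30, 0), (7, 0, 0), (11, 972, 0)]),
  (2343, 71, [(3, 1295, 0), (11, 105, 1), (71, 0, 0)]),
  (2449, 31, [(31, 0, 0), (79, 630, 0)]),
  (2451, 19, [(3, 97524, 0), (19, 0, 0), (43, 72, 0)]),
  (2475, 5, [(3, 100, 0), (5, 0, 0), (11, 2700, 0)]),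
  (2603, 137, [(19, 34, 1), (137, 0, 0)]),
  (2673, 3, [(3, 0, 0), (11, 13122, 0)]),
  (3127, 53, [(53, 0, 0), (59, 754, 0)]),
  (3465, 7, [(3, 60, 0), (5, 5940, 0), (7, 0, 0), (11, 810, 0)]),
  (3905, 11, [(5, 3195, 0), (11, 0, 0), (71, 25, 0)]),
  (4085, 43, [(5, 67032, 0), (19, 105, 1), (43, 0, 0)]),
  (4125, 5, [(3, 10000, 0), (5, 0, 0), (11, 7500, 0)]),
  (4429, 103, [(43, 51, 1), (103, 0, 0)]),
  (4455, 3, [(3, 0, 0), (5, 160380, 0), (11, 14580, 0)]),
  (4851, 7, [(3, 5880, 0), (7, 0, 0), (11, 5292, 0)]),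
  (5141, 97, [(53, 24, 1), (97, 0, 0)]),
  (5467, 11, [(7, 4970, 0), (11, 0, 0), (71, 280, 0)]),
  (5719, 43, [(7, 1026, 0), (19, 21, 1), (43, 0, 0)]),
  (5775, 7, [(3, 6000, 0), (5, 330, 0), (7, 0, 0), (11, 2250, 0)]),
  (6237, 7, [(3, 60, 0), (7, 0, 0), (11, 8748, 0)]),
  (7029, 71, [(3, 1715, 0), (11, 945, 1), (71, 0, 0)]),
  (7347, 31, [(3, 462150, 0), (31, 0, 0), (79, 90, 0)]),
  (7353, 19, [(3, 54180, 0), (19, 0, 0), (43, 135, 0)]),
  (7425, 5, [(3, 400, 0), (5, 0, 0), (11, 24300, 0)]),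
  (7809, 19, [(3, 2347632, 0), (19, 0, 0), (137, 288, 0)]),
  (8019, 3, [(3, 0, 0), (11, 118098, 0)]),
  (8085, 7, [(3, 11760, 0), (5, 32340, 0), (7, 0, 0), (11, 4410, 0)]),
  (8591, 71, [(11, 35, 1), (71, 0, 0)]),
  (8987, 43, [(11, 15162, 0), (19, 1155, 1), (43, 0, 0)]),
  (9381, 53, [(3, 1067664, 0), (53, 0, 0), (59, 2652, 0)]),
  (10153, 13, [(11, 5040, 0), (13, 0, 0), (71, 3960, 0)]),
  (10395, 7, [(3, 120, 0), (5, 53460, 0), (7, 0, 0), (11, 7290, 0)]),
  (10621, 19, [(13, 81270, 0), (19, 0, 0), (43, 2340, 0)]),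
  (11219, 863, [(13, 431, 1), (863, 0, 0)]),
  (11319, 7, [(3, 144060, 0), (7, 0, 0), (11, 28812, 0)])]

lemma certs_ok : (certs.all fun c => chk c.1 c.2.1 c.2.2) = true := by decide +kernel

lemma mem_certs {u : ℕ} (h : u ∈ certs.map (fun c => c.1)) : NoMenon u := by
  obtain ⟨c, hc, rfl⟩ := List.mem_map.mp h
  exact cert c.1 c.2.1 c.2.2 (List.all_eq_true.mp certs_ok c hc)

/-- the pairs `(q, p)` -/
def pairsL : List (ℕ × ℕ) := [(3, 11), (9, 11), (19, 43), (53, 59), (11, 71), (31, 79), (53, 97),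
  (43, 103), (19, 137), (65, 163), (33, 233), (13, 863)]

def tst (q p : ℕ) : Bool :=
  !(decide (q < p) && decide (q * p < 11715) && decide (q ^ (p - 1) % (p * p) = 1)) ||
    decide ((q, p) ∈ pairsL)

lemma tst_ok : ((List.range 53).all fun i => (List.range (5858 / (2 * i + 3) + 2)).all fun j =>
    tst (2 * i + 3) (2 * j + 1)) = true := by decide +kernel

lemma smooth_dvd {u : ℕ} (hu0 : u ≠ 0) (hlt : u < 11715) (h : ∀ q : ℕ, q.Prime → q ∣ u → q ≤ 11) :
    u ∣ 2310 ^ 14 := by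
  have h2 : u = ∏ p ∈ u.primeFactors, p ^ u.factorization p :=
    (Nat.prod_factorization_pow_eq_self hu0).symm
  rw [h2]
  have h3 : ∀ p ∈ u.primeFactors, u.factorization p ≤ 14 := by
    intro p hp
    apply Nat.factorization_le_of_le_pow
    have h4 := (Nat.prime_of_mem_primeFactors hp).two_le
    calc u ≤ 2 ^ 14 := by omega
      _ ≤ p ^ 14 := Nat.pow_le_pow_left h4 14
  refine (Finset.prod_dvd_prod_of_dvd _ (fun p => p ^ 14) fun p hp =>
    pow_dvd_pow p (h3 p hp)).trans ?_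
  rw [Finset.prod_pow]
  apply pow_dvd_pow_of_dvd
  have h5 : u.primeFactors ⊆ ({2, 3, 5, 7, 11} : Finset ℕ) := by
    intro p hp
    have h6 := Nat.prime_of_mem_primeFactors hp
    have h7 := h p h6 (Nat.dvd_of_mem_primeFactors hp)
    interval_cases p <;> first | (exfalso; revert h6; decide) | decide
  exact (Finset.prod_dvd_prod_of_subset _ _ _ h5).trans (by decide)

lemma chk11_all : ((List.range 356).all fun m => !(decide (m % 2 = 1) && !decide (m % 11 = 0) &&
    decide (2310 ^ 14 % (33 * m) = 0)) || decide (33 * m ∈ certs.map (fun c => c.1))) = true := by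
  decide +kernel

lemma chk11 (m : ℕ) (h1 : m < 356) (h2 : m % 2 = 1) (h3 : m % 11 ≠ 0)
    (h4 : 2310 ^ 14 % (33 * m) = 0) : 33 * m ∈ certs.map (fun c => c.1) := by
  have h := List.all_eq_true.mp chk11_all m (List.mem_range.mpr h1)
  simp only [Bool.or_eq_true, Bool.not_eq_true', decide_eq_true_eq] at h
  rcases h with h | h
  · exfalso
    have : (decide (m % 2 = 1) && !decide (m % 11 = 0) && decide (2310 ^ 14 % (33 * m) = 0)) = true := by
      simp only [Bool.and_eq_true, decide_eq_true_eq, Bool.not_eq_true', decide_eq_false_iff_not]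
      exact ⟨⟨h2, h3⟩, h4⟩
    rw [this] at h
    exact absurd h (by decide)
  · exact h

lemma chkrest : ∀ N ∈ [817, 3127, 781, 2449, 5141, 4429, 2603, 11219], ∀ m < 15, m % 2 = 1 →
    N * m < 11715 → N * m ∈ certs.map (fun c => c.1) := by decide +kernel

/-- No exception below `11715`. -/
theorem finite_range {u : ℕ} (hu : Odd u) (h1 : 1 < u) (hlt : u < 11715) : NoMenon u := by
  have hu0 : u ≠ 0 := by omega
  have hne : u.primeFactors.Nonempty := Nat.nonempty_primeFactors.mpr h1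
  obtain ⟨p, hpm, hmax'⟩ := Finset.exists_max_image u.primeFactors id hne
  have hp := Nat.prime_of_mem_primeFactors hpm
  have hpu := Nat.dvd_of_mem_primeFactors hpm
  have hmax : ∀ q : ℕ, q.Prime → q ∣ u → q ≤ p := fun q hq hqu =>
    hmax' q ((Nat.mem_primeFactors_of_ne_zero hu0).mpr ⟨hq, hqu⟩)
  rcases Classical.em (∀ q : ℕ, q.Prime → q ∣ u → q ≠ p →
      ¬ p ^ (2 * u.factorization p) ∣ q ^ (p - 1) - 1) with hW | hW
  · exact largest hu hp hpu hmax (fun q hq hqu hqp => Or.inl (hW q hq hqu hqp))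
  push Not at hW
  obtain ⟨q, hq, hqu, hqp, hdvd⟩ := hW
  have hqlt : q < p := lt_of_le_of_ne (hmax q hq hqu) hqp
  have ha1 : 1 ≤ u.factorization p := by
    have := (hp.pow_dvd_iff_le_factorization hu0 (k := 1)).mp (by rwa [pow_one])
    exact this
  have hqpu : q * p ∣ u := Nat.Coprime.mul_dvd_of_dvd_of_dvd
    ((Nat.coprime_primes hq hp).mpr hqp) hqu hpu
  have hqplt : q * p < 11715 := lt_of_le_of_lt (Nat.le_of_dvd (by omega) hqpu) hlt
  have hqo : Odd q := Odd.of_dvd_nat hu hqu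
  have hpo : Odd p := Odd.of_dvd_nat hu hpu
  have hq2 := hq.two_le
  obtain ⟨i, hi⟩ : ∃ i, q = 2 * i + 3 := by
    rcases hqo with ⟨k, hk⟩
    exact ⟨k - 1, by omega⟩
  obtain ⟨j, hj⟩ := hpo
  have hilt : i < 53 := by
    by_contra hcon
    have h109 : 109 ≤ q := by omega
    have h110 : 109 ≤ p := by omega
    have := Nat.mul_le_mul h109 h110
    omega
  have hjlt : j < 5858 / (2 * i + 3) + 2 := by
    have h2 : j ≤ 5858 / (2 * i + 3) := by
      rw [Nat.le_div_iff_mul_le (by omega)]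
      have h3 : (2 * i + 3) * (2 * j + 1) < 11715 := by rw [← hi, ← hj]; exact hqplt
      nlinarith
    omega
  have ht := List.all_eq_true.mp (List.all_eq_true.mp tst_ok i (List.mem_range.mpr hilt)) j
    (List.mem_range.mpr hjlt)
  rw [← hi, ← hj] at ht
  have hp3 : 3 < p := by omega
  have hpp : q ^ (p - 1) % (p * p) = 1 := by
    have h2 : p * p ∣ q ^ (p - 1) - 1 := by
      refine Dvd.dvd.trans ?_ hdvd
      rw [← sq]
      exact pow_dvd_pow p (by omega)
    have h3 : 1 ≤ q ^ (p - 1) := Nat.one_le_pow _ _ hq.pos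
    have h4 : 1 ≡ q ^ (p - 1) [MOD p * p] := (Nat.modEq_iff_dvd' h3).mpr h2
    have h5 : q ^ (p - 1) % (p * p) = 1 % (p * p) := h4.symm
    rw [h5]
    exact Nat.mod_eq_of_lt (by nlinarith)
  have hpair : (q, p) ∈ pairsL := by
    simp only [tst, Bool.or_eq_true, Bool.not_eq_true', decide_eq_true_eq] at ht
    rcases ht with ht | ht
    · exfalso
      have : (decide (q < p) && decide (q * p < 11715) && decide (q ^ (p - 1) % (p * p) = 1)) = true := by
        simp only [Bool.and_eq_true, decide_eq_true_eq]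
        exact ⟨⟨hqlt, hqplt⟩, hpp⟩
      rw [this] at ht
      exact absurd ht (by decide)
    · exact ht
  obtain ⟨m, hm⟩ := hqpu
  have hmo : m % 2 = 1 := by
    rw [hm] at hu
    exact Nat.odd_iff.mp (Nat.odd_mul.mp hu).2
  have rest : ∀ N, N ∈ [817, 3127, 781, 2449, 5141, 4429, 2603, 11219] → q * p = N → NoMenon u := by
    intro N hN hqpN
    apply mem_certs
    rw [hm, hqpN]
    have hNm : N * m < 11715 := by rw [← hqpN, ← hm]; exact hlt
    refine chkrest N hN m ?_ hmo hNm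
    have hN781 : 781 ≤ N := by
      simp only [List.mem_cons, List.not_mem_nil, or_false] at hN
      omega
    by_contra hcon
    have : 781 * 15 ≤ N * m := Nat.mul_le_mul hN781 (by omega)
    omega
  simp only [pairsL, List.mem_cons, List.not_mem_nil, or_false, Prod.mk.injEq] at hpair
  rcases hpair with ⟨h, h'⟩ | ⟨h, h'⟩ | ⟨h, h'⟩ | ⟨h, h'⟩ | ⟨h, h'⟩ | ⟨h, h'⟩ | ⟨h, h'⟩ |
    ⟨h, h'⟩ | ⟨h, h'⟩ | ⟨h, h'⟩ | ⟨h, h'⟩ | ⟨h, h'⟩
  · -- (3, 11)
    apply mem_certs
    have h33 : u = 33 * m := by rw [hm, h, h']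
    rw [h33]
    have hm356 : m < 356 := by omega
    refine chk11 m hm356 hmo ?_ ?_
    · intro hm11
      have h121 : 11 ^ 2 ∣ u := by
        rw [h33]
        obtain ⟨k, hk⟩ := Nat.dvd_of_mod_eq_zero hm11
        exact ⟨3 * k, by rw [hk]; ring⟩
      have hp11 : (11 : ℕ).Prime := by norm_num
      have ha2 : 2 ≤ u.factorization 11 := (hp11.pow_dvd_iff_le_factorization hu0).mp h121
      rw [h, h'] at hdvd
      have : 11 ^ 4 ∣ 3 ^ (11 - 1) - 1 := (pow_dvd_pow 11 (by omega)).trans hdvd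
      revert this
      decide +kernel
    · rw [← h33]
      exact Nat.mod_eq_zero_of_dvd (smooth_dvd hu0 hlt (by rw [← h']; exact hmax))
  · exfalso; rw [h] at hq; revert hq; norm_num
  · exact rest 817 (by decide) (by rw [h, h'])
  · exact rest 3127 (by decide) (by rw [h, h'])
  · exact rest 781 (by decide) (by rw [h, h'])
  · exact rest 2449 (by decide) (by rw [h, h'])
  · exact rest 5141 (by decide) (by rw [h, h'])
  · exact rest 4429 (by decide) (by rw [h, h'])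
  · exact rest 2603 (by decide) (by rw [h, h'])
  · exfalso; rw [h] at hq; revert hq; norm_num
  · exfalso; rw [h] at hq; revert hq; norm_num
  · exact rest 11219 (by decide) (by rw [h, h'])

end PartC4



/-- **Main result.**  Nonexistence of `Q_{4u²}`-developed Menon Hadamard matrices
1. under the descent criterion, for any `d ∣ u` with `u² < d φ(u²)`;
2. whenever the largest prime factor `p` of `u` is not a Wieferich-type exception;
3. for `u = p^a q^b` unless `p, q` is a double Wieferich pair with both orders odd;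
4. for all but finitely many `u` composed of primes in a given finite set;
5. for every odd `u` with `1 < u < 11715`. -/
theorem result :
    (∀ u d : ℕ, Odd u → d ∣ u → u ^ 2 < d * Nat.totient (u ^ 2) →
      (∀ q : ℕ, q.Prime → q ∣ u →
        (∃ m : ℕ, q ^ m ≡ 1 + u ^ 2 / d [MOD ordCompl[q] (u ^ 2)]) ∨
        ∃ m : ℕ, ordCompl[q] (u ^ 2) ∣ q ^ m + 1) → NoMenon u) ∧
    (∀ u p : ℕ, Odd u → p.Prime → p ∣ u → (∀ q : ℕ, q.Prime → q ∣ u → q ≤ p) →
      (∀ q : ℕ, q.Prime → q ∣ u → q ≠ p →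
        (¬ p ^ (2 * u.factorization p) ∣ q ^ (p - 1) - 1) ∨
        ∃ m : ℕ, ordCompl[q] (u ^ 2) ∣ q ^ m + 1) → NoMenon u) ∧
    (∀ p q a b : ℕ, p.Prime → q.Prime → Odd p → Odd q → p ≠ q → 1 ≤ a → 1 ≤ b →
      (¬ p ^ (2 * a) ∣ q ^ (p - 1) - 1) ∨ Even (orderOf (q : ZMod p)) ∨
        (¬ q ^ (2 * b) ∣ p ^ (q - 1) - 1) ∨ Even (orderOf (p : ZMod q)) →
      NoMenon (p ^ a * q ^ b)) ∧
    (∀ P : Finset ℕ, {u : ℕ | Odd u ∧ u.primeFactors ⊆ P ∧ ¬ NoMenon u}.Finite) ∧
    (∀ u : ℕ, Odd u → 1 < u → u < 11715 → NoMenon u) := by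
  refine ⟨fun u d hu hd hlt H => criterion hu hd hlt H,
    fun u p hu hp hpu hmax H => largest hu hp hpu hmax H, ?_, asymptotic,
    fun u hu h1 hlt => finite_range hu h1 hlt⟩
  intro p q a b hp hq hpo hqo hpq ha hb H
  rcases H with H | H | H | H
  · exact two_primes hp hpo hq hqo hpq ha hb (Or.inl H)
  · exact two_primes hp hpo hq hqo hpq ha hb (Or.inr H)
  · rw [mul_comm]
    exact two_primes hq hqo hp hpo hpq.symm hb ha (Or.inl H)
  · rw [mul_comm]
    exact two_primes hq hqo hp hpo hpq.symm hb ha (Or.inr H)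

end Pool.Agent.Results.MP_d3ed34_co.FieldDescent
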